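import Mathlib
import Pool.Agent.H69.AMU.ColRep

set_option autoImplicit false

/-! # The trace at a generic parameter -/

namespace Pool.Agent.H61.AMU

open Pool.Agent.H69.AMU Pool.Agent.H69.AMU.FusionPath Matrix

/-- The trace of the `m`-th power of the braid `β` on the space `V(k, ..., k, c)` at the
parameter `A`. -/
noncomputable def genTrace (n k c : ℕ) (hk : 0 < k) (A : ℂ) (hA : Admissible (n * k) (n * k) A)
    (β : BraidGroup n) (m : ℕ) : ℂ :=
  trace ((braidRep (n * k) c (n * k) A hA (cable n k hk β)).val ^ m * colourIdem n k c (n * k) A)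

end Pool.Agent.H61.AMU
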