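import Mathlib
import Pool.Agent.H69.AMU.Coxeter

set_option autoImplicit false

/-! # Crossing numbers of braids -/

namespace Pool.Agent.H61.AMU

open Pool.Agent.H69.AMU Matrix

/-- Relabelling the rows and columns of an integer matrix by a permutation. -/
def permAct (n : ℕ) : Equiv.Perm (Fin n) →* MulAut (Multiplicative (Matrix (Fin n) (Fin n) ℤ)) where
  toFun π :=
    { toFun := fun M => Multiplicative.ofAdd ((Multiplicative.toAdd M).submatrix π.symm π.symm)
      invFun := fun M => Multiplicative.ofAdd ((Multiplicative.toAdd M).submatrix π π)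
      left_inv := fun M => by
        apply Multiplicative.toAdd.injective
        ext p q
        simp
      right_inv := fun M => by
        apply Multiplicative.toAdd.injective
        ext p q
        simp
      map_mul' := fun M N => by
        apply Multiplicative.toAdd.injective
        ext p q
        simp }
  map_one' := by
    ext M p q
    rfl
  map_mul' π σ := by
    ext M p q
    rfl

lemma permAct_apply (n : ℕ) (π : Equiv.Perm (Fin n)) (M : Multiplicative (Matrix (Fin n) (Fin n) ℤ)) :
    Multiplicative.toAdd (permAct n π M) = (Multiplicative.toAdd M).submatrix π.symm π.symm := rfl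

/-- The symmetric matrix with entries `1` at `(p, q)` and `(q, p)` and `0` elsewhere. -/
def pairMat (n : ℕ) (p q : Fin n) : Matrix (Fin n) (Fin n) ℤ :=
  Matrix.single p q 1 + Matrix.single q p 1

lemma pairMat_submatrix (n : ℕ) (π : Equiv.Perm (Fin n)) (p q : Fin n) :
    (pairMat n p q).submatrix π.symm π.symm = pairMat n (π p) (π q) := by
  ext a b
  simp only [pairMat, Matrix.submatrix_apply, Matrix.add_apply, Matrix.single_apply,
    Equiv.eq_symm_apply]

lemma permAct_pair (n : ℕ) (π : Equiv.Perm (Fin n)) (p q : Fin n) :
    permAct n π (Multiplicative.ofAdd (pairMat n p q))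
      = Multiplicative.ofAdd (pairMat n (π p) (π q)) := by
  apply Multiplicative.toAdd.injective
  rw [permAct_apply]
  exact pairMat_submatrix n π p q

lemma pairMat_symm (n : ℕ) (p q : Fin n) : pairMat n p q = pairMat n q p := by
  unfold pairMat
  rw [add_comm]

/-- The crossing data of the `i`-th generator: one crossing between the strands `i`, `i + 1`. -/
def genCross (n : ℕ) (i : Fin (n - 1)) :
    Multiplicative (Matrix (Fin n) (Fin n) ℤ) ⋊[permAct n] Equiv.Perm (Fin n) :=
  ⟨Multiplicative.ofAdd (pairMat n ⟨i, by omega⟩ ⟨i + 1, by omega⟩), genPerm n i⟩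

lemma genCross_rels (n : ℕ) : ∀ w ∈ braidRels n, FreeGroup.lift (genCross n) w = 1 := by
  rintro w (⟨i, j, hij, rfl⟩ | ⟨i, j, hij, rfl⟩)
  · simp only [map_mul, map_inv, FreeGroup.lift_apply_of]
    have hcomm : genCross n i * genCross n j = genCross n j * genCross n i := by
      have hp := genPerm_rels n _ (Or.inl ⟨i, j, hij, rfl⟩)
      simp only [map_mul, map_inv, FreeGroup.lift_apply_of] at hp
      have hp' : genPerm n i * genPerm n j = genPerm n j * genPerm n i := by
        have := mul_inv_eq_one.1 hp
        have h2 := mul_inv_eq_iff_eq_mul.1 this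
        exact h2
      apply SemidirectProduct.ext
      · simp only [SemidirectProduct.mul_left, genCross]
        rw [permAct_pair, permAct_pair]
        have e1 : (genPerm n i) ⟨j, by omega⟩ = (⟨j, by omega⟩ : Fin n) := by
          unfold genPerm
          rw [Equiv.swap_apply_of_ne_of_ne] <;> simp [Fin.ext_iff] <;> omega
        have e2 : (genPerm n i) ⟨(j : ℕ) + 1, by omega⟩ = (⟨(j : ℕ) + 1, by omega⟩ : Fin n) := by
          unfold genPerm
          rw [Equiv.swap_apply_of_ne_of_ne] <;> simp [Fin.ext_iff] <;> omega
        have e3 : (genPerm n j) ⟨i, by omega⟩ = (⟨i, by omega⟩ : Fin n) := by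
          unfold genPerm
          rw [Equiv.swap_apply_of_ne_of_ne] <;> simp [Fin.ext_iff] <;> omega
        have e4 : (genPerm n j) ⟨(i : ℕ) + 1, by omega⟩ = (⟨(i : ℕ) + 1, by omega⟩ : Fin n) := by
          unfold genPerm
          rw [Equiv.swap_apply_of_ne_of_ne] <;> simp [Fin.ext_iff] <;> omega
        rw [e1, e2, e3, e4, mul_comm]
      · simp only [SemidirectProduct.mul_right, genCross]
        exact hp'
    rw [hcomm]
    group
  · simp only [map_mul, map_inv, FreeGroup.lift_apply_of]
    have h : genCross n i * genCross n j * genCross n i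
        = genCross n j * genCross n i * genCross n j := by
      have hp := genPerm_rels n _ (Or.inr ⟨i, j, hij, rfl⟩)
      simp only [map_mul, map_inv, FreeGroup.lift_apply_of] at hp
      have hp' : genPerm n i * genPerm n j * genPerm n i
          = genPerm n j * genPerm n i * genPerm n j := by
        have h1 := mul_inv_eq_one.1 hp
        have h2 := mul_inv_eq_iff_eq_mul.1 h1
        have h3 := mul_inv_eq_iff_eq_mul.1 h2
        rw [h3]
      apply SemidirectProduct.ext
      · simp only [SemidirectProduct.mul_left, SemidirectProduct.mul_right, genCross]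
        rw [map_mul (permAct n) , map_mul (permAct n), MulAut.mul_apply, MulAut.mul_apply]
        simp only [permAct_pair]
        have ej : (⟨(j : ℕ), by omega⟩ : Fin n) = ⟨(i : ℕ) + 1, by omega⟩ := by
          apply Fin.ext; simp [hij]
        have ej' : (⟨(j : ℕ) + 1, by omega⟩ : Fin n) = ⟨(i : ℕ) + 2, by omega⟩ := by
          apply Fin.ext; simp; omega
        rw [ej, ej']
        have a1 : (genPerm n i) ⟨(i : ℕ) + 1, by omega⟩ = (⟨i, by omega⟩ : Fin n) := by
          unfold genPerm
          exact Equiv.swap_apply_right _ _
        have a0 : (genPerm n i) ⟨(i : ℕ), by omega⟩ = (⟨(i : ℕ) + 1, by omega⟩ : Fin n) := by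
          unfold genPerm
          exact Equiv.swap_apply_left _ _
        have a2 : (genPerm n i) ⟨(i : ℕ) + 2, by omega⟩ = (⟨(i : ℕ) + 2, by omega⟩ : Fin n) := by
          unfold genPerm
          rw [Equiv.swap_apply_of_ne_of_ne] <;> simp [Fin.ext_iff]
        have b0 : (genPerm n j) ⟨(i : ℕ), by omega⟩ = (⟨(i : ℕ), by omega⟩ : Fin n) := by
          unfold genPerm
          rw [Equiv.swap_apply_of_ne_of_ne] <;> simp [Fin.ext_iff] <;> omega
        have b1 : (genPerm n j) ⟨(i : ℕ) + 1, by omega⟩ = (⟨(i : ℕ) + 2, by omega⟩ : Fin n) := by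
          unfold genPerm
          rw [ej, ej']
          exact Equiv.swap_apply_left _ _
        have b2 : (genPerm n j) ⟨(i : ℕ) + 2, by omega⟩ = (⟨(i : ℕ) + 1, by omega⟩ : Fin n) := by
          unfold genPerm
          rw [ej, ej']
          exact Equiv.swap_apply_right _ _
        rw [a1, a2, b0, b1, a0, a2, b2]
        rw [← ofAdd_add, ← ofAdd_add, ← ofAdd_add, ← ofAdd_add]
        congr 1
        abel
      · simp only [SemidirectProduct.mul_right, genCross]
        exact hp'
    rw [h]
    group

/-- The crossing data of a braid: the matrix of signed crossing numbers and the permutation. -/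
def crossHom (n : ℕ) : BraidGroup n →*
    Multiplicative (Matrix (Fin n) (Fin n) ℤ) ⋊[permAct n] Equiv.Perm (Fin n) :=
  PresentedGroup.toGroup (genCross_rels n)

/-- The matrix of signed crossing numbers between the strands of a braid; for a pure braid the
entry at `(p, q)` is twice the linking number of the strands `p` and `q`. -/
def crossing (n : ℕ) (b : BraidGroup n) : Matrix (Fin n) (Fin n) ℤ :=
  Multiplicative.toAdd (crossHom n b).left

/-- The exponent sum of a braid, as the sum of the crossing numbers of all pairs of strands. -/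
def writhe (n : ℕ) (b : BraidGroup n) : ℤ := ∑ p, ∑ q, if p < q then crossing n b p q else 0

/-- The Laplacian of a matrix. -/
def lapl {R : Type*} [CommRing R] (n : ℕ) (C : Matrix (Fin n) (Fin n) R) : Matrix (Fin n) (Fin n) R :=
  Matrix.diagonal (fun p => ∑ q, C p q) - C

lemma crossHom_right (n : ℕ) (b : BraidGroup n) : (crossHom n b).right = permHom n b := by
  have h : (SemidirectProduct.rightHom).comp (crossHom n) = permHom n := by
    apply PresentedGroup.ext
    intro i
    simp only [MonoidHom.comp_apply, crossHom, permHom, PresentedGroup.toGroup.of]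
    rfl
  exact congrArg (fun f => f b) h

lemma crossing_mul (n : ℕ) (b c : BraidGroup n) : crossing n (b * c)
    = crossing n b + (crossing n c).submatrix (permHom n b).symm (permHom n b).symm := by
  unfold crossing
  rw [map_mul, SemidirectProduct.mul_left, toAdd_mul, permAct_apply, crossHom_right]

lemma crossing_one (n : ℕ) : crossing n 1 = 0 := by
  unfold crossing
  rw [map_one]
  rfl

lemma crossing_gen (n : ℕ) {i : ℕ} (hi : i < n - 1) :
    crossing n (gen n i) = pairMat n ⟨i, by omega⟩ ⟨i + 1, by omega⟩ := by
  unfold crossing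
  rw [gen_of_lt hi, crossHom, PresentedGroup.toGroup.of]
  rfl

end Pool.Agent.H61.AMU
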