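import Mathlib
import Pool.Agent.H69.AMU.ColFam

set_option autoImplicit false

/-! # The fusion paths with one descent and the permutation representation -/

namespace Pool.Agent.H61.AMU

open Pool.Agent.H69.AMU Pool.Agent.H69.AMU.FusionPath Matrix

variable {N c L : ℕ}

/-- The length of the initial ascent of a path. -/
noncomputable def hgt (p : FusionPath N c L) : ℕ := Nat.findGreatest (fun h => p.lab h = h) N

lemma lab_hgt (p : FusionPath N c L) : p.lab (hgt p) = hgt p :=
  Nat.findGreatest_spec (P := fun h => p.lab h = h) (m := 0) (Nat.zero_le N) p.lab_zero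

lemma lab_le_self (p : FusionPath N c L) (k : ℕ) (hk : k ≤ N) : p.lab k ≤ k := by
  induction k with
  | zero => rw [p.lab_zero]
  | succ k ih =>
    have h1 := ih (by omega)
    rcases p.lab_step (by omega : k < N) with h | h <;> omega

lemma lab_anti (p : FusionPath N c L) (k d : ℕ) (hk : k + d ≤ N) : p.lab (k + d) ≤ p.lab k + d := by
  induction d with
  | zero => simp
  | succ d ih =>
    have h1 := ih (by omega)
    have e : k + (d + 1) = (k + d) + 1 := by ring
    rw [e]
    rcases p.lab_step (by omega : k + d < N) with h | h <;> omega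

lemma lab_before (p : FusionPath N c L) (k : ℕ) (hk : k ≤ hgt p) (hN : hgt p ≤ N) : p.lab k = k := by
  have h1 := lab_anti p k (hgt p - k) (by omega)
  have e : k + (hgt p - k) = hgt p := by omega
  rw [e, lab_hgt] at h1
  have h2 := lab_le_self p k (by omega)
  omega

lemma hgt_le (p : FusionPath N c L) : hgt p ≤ N := Nat.findGreatest_le N

lemma hgt_lt (hc : c + 2 = N) (p : FusionPath N c L) : hgt p < N := by
  rcases Nat.lt_or_ge (hgt p) N with h | h
  · exact h
  · have h1 : hgt p = N := le_antisymm (hgt_le p) h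
    have h2 := lab_hgt p
    rw [h1, p.lab_ge le_rfl] at h2
    omega

lemma lab_succ_hgt (hc : c + 2 = N) (p : FusionPath N c L) : p.lab (hgt p) = p.lab (hgt p + 1) + 1 := by
  have hlt := hgt_lt hc p
  rcases p.lab_step hlt with h | h
  · exfalso
    have h1 : p.lab (hgt p + 1) = hgt p + 1 := by rw [h, lab_hgt]
    have h2 := Nat.le_findGreatest (P := fun h => p.lab h = h) (by omega : hgt p + 1 ≤ N) h1
    have h3 : hgt p + 1 ≤ hgt p := h2
    omega
  · exact h

lemma one_le_hgt (hc : c + 2 = N) (p : FusionPath N c L) : 1 ≤ hgt p := by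
  have h := lab_succ_hgt hc p
  rw [lab_hgt] at h
  omega

lemma lab_after (hc : c + 2 = N) (p : FusionPath N c L) (k : ℕ) (hk : hgt p < k) (hkN : k ≤ N) :
    p.lab k = k - 2 := by
  have hlt := hgt_lt hc p
  have h1 := lab_succ_hgt hc p
  rw [lab_hgt] at h1
  have h2 := lab_anti p (hgt p + 1) (k - (hgt p + 1)) (by omega)
  have e2 : hgt p + 1 + (k - (hgt p + 1)) = k := by omega
  rw [e2] at h2
  have h3 := lab_anti p k (N - k) (by omega)
  have e3 : k + (N - k) = N := by omega
  rw [e3, p.lab_ge le_rfl] at h3
  omega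

/-- The labels of a path with one descent. -/
lemma lab_eq (hc : c + 2 = N) (p : FusionPath N c L) (k : ℕ) (hkN : k ≤ N) :
    p.lab k = if k ≤ hgt p then k else k - 2 := by
  split_ifs with h
  · exact lab_before p k h (hgt_le p)
  · exact lab_after hc p k (by omega) hkN

lemma hgt_inj (hc : c + 2 = N) {p q : FusionPath N c L} (h : hgt p = hgt q) : p = q := by
  apply FusionPath.ext_lab
  intro k
  by_cases hk : k ≤ N
  · rw [lab_eq hc p k hk, lab_eq hc q k hk, h]
  · rw [p.lab_ge (by omega), q.lab_ge (by omega)]

/-- Characterisation of the length of the ascent. -/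
lemma hgt_eq (_hc : c + 2 = N) (p : FusionPath N c L) (h : ℕ) (hN : h < N) (h1 : p.lab h = h)
    (h2 : p.lab (h + 1) ≠ h + 1) : hgt p = h := by
  have h3 : h ≤ hgt p := Nat.le_findGreatest (P := fun h => p.lab h = h) hN.le h1
  by_contra hne
  have h4 : h + 1 ≤ hgt p := by omega
  exact h2 (lab_before p (h + 1) h4 (hgt_le p))

/-- The vectors of the seminormal basis (up to scaling) of the sum zero space. -/
noncomputable def vv (h x : ℕ) : ℂ := if x < h then 1 else if x = h then -(h : ℂ) else 0

/-- The scaling factors. -/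
noncomputable def aa (h : ℕ) : ℂ := (-1) ^ h / ((h : ℂ) * (h + 1))

/-- The intertwiner from paths with one descent to functions on `n` points. -/
noncomputable def TT (n N c L : ℕ) : Matrix (Fin n) (FusionPath N c L) ℂ :=
  fun x p => aa (hgt p) * vv (hgt p) x

lemma unknot_one (j : ℕ) : unknot 1 j = (-1) ^ j * ((j : ℂ) + 1) := by
  induction j using Nat.strong_induction_on with
  | _ j ih =>
    rcases j with _ | _ | j
    · simp [unknot]
    · simp [unknot]
      norm_num
    · have h2 : unknot 1 (j + 2) = (-1 ^ 2 - (1 ^ 2)⁻¹) * unknot 1 (j + 1) - unknot 1 j := rfl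
      rw [h2, ih j (by omega), ih (j + 1) (by omega)]
      push_cast
      ring

/-- Functions on `n` points: permutation matrices. -/
noncomputable def pm (n : ℕ) (w : Equiv.Perm (Fin n)) : Matrix (Fin n) (Fin n) ℂ :=
  fun x y => if x = w y then 1 else 0

lemma pm_one (n : ℕ) : pm n 1 = 1 := by
  ext x y
  rw [pm, Matrix.one_apply, Equiv.Perm.one_apply]

lemma pm_mul_apply {ι : Type*} (n : ℕ) (w : Equiv.Perm (Fin n)) (M : Matrix (Fin n) ι ℂ) (x : Fin n) (i : ι) :
    (pm n w * M) x i = M (w.symm x) i := by
  rw [Matrix.mul_apply, Finset.sum_eq_single (w.symm x)]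
  · simp [pm]
  · intro y _ hy
    have : x ≠ w y := by
      intro h
      apply hy
      rw [h, Equiv.symm_apply_apply]
    simp [pm, this]
  · intro h
    exact absurd (Finset.mem_univ _) h

lemma pm_mul (n : ℕ) (v w : Equiv.Perm (Fin n)) : pm n (v * w) = pm n v * pm n w := by
  ext x y
  rw [pm_mul_apply]
  simp only [pm, Equiv.Perm.mul_apply]
  congr 1
  rw [Equiv.symm_apply_eq]

lemma vv_diff (g : ℕ) (x : ℕ) : vv (g + 1) x - vv g x
    = ((g : ℂ) + 1) * ((if x = g then 1 else 0) - (if x = g + 1 then 1 else 0)) := by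
  unfold vv
  rcases lt_trichotomy x g with h | h | h
  · rw [if_pos (by omega), if_pos h, if_neg (by omega), if_neg (by omega)]
    simp
  · subst h
    rw [if_pos (by omega), if_neg (by omega), if_pos rfl, if_pos rfl, if_neg (by omega)]
    ring
  · by_cases h2 : x = g + 1
    · subst h2
      rw [if_neg (by omega), if_pos rfl, if_neg (by omega), if_neg (by omega), if_neg (by omega),
        if_pos rfl]
      push_cast
      ring
    · rw [if_neg (by omega), if_neg h2, if_neg (by omega), if_neg (by omega), if_neg (by omega),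
        if_neg h2]
      simp

/-- The value of the cup-cap element composed with the intertwiner. -/
lemma TT_cupcap (n : ℕ) (hc : c + 2 = N) (hL : N ≤ L + 1) {g : ℕ} (hg : g + 1 < N) (x : Fin n)
    (p : FusionPath N c L) :
    (TT n N c L * cupcap N c L 1 g) x p =
      if hgt p = g ∨ hgt p = g + 1 then
        (-1) ^ g / ((g : ℂ) + 1) * ((if (x : ℕ) = g then 1 else 0) - (if (x : ℕ) = g + 1 then 1 else 0))
      else 0 := by
  classical
  rw [Matrix.mul_apply]
  have hlg := lab_eq hc p g (by omega)
  have hlg2 := lab_eq hc p (g + 2) (by omega)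
  have h1 := one_le_hgt hc p
  by_cases hh : hgt p = g ∨ hgt p = g + 1
  · rw [if_pos hh]
    have e1 : p.lab g = g := by
      rw [hlg, if_pos (by omega)]
    have e2 : p.lab (g + 2) = g := by
      rw [hlg2, if_neg (by omega)]
      omega
    have e12 : p.lab g = p.lab (g + 2) := by rw [e1, e2]
    let F : ℕ → ℂ := fun b => (if b = g + 1 then aa (g + 1) * vv (g + 1) x else aa g * vv g x) *
      (unknot 1 b / unknot 1 g)
    have hsum : ∀ q : FusionPath N c L, TT n N c L x q * cupcap N c L 1 g q p
        = if AgreeOff (g + 1) q p then F (q.lab (g + 1)) else 0 := by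
      intro q
      by_cases hq : AgreeOff (g + 1) q p
      · rw [cupcap_apply_pos hq e12, if_pos hq, e1]
        have hq1 : q.lab g = g := by rw [hq g (by omega), e1]
        have hq2 : q.lab (g + 2) = g := by rw [hq (g + 2) (by omega), e2]
        show TT n N c L x q * _ = (if q.lab (g + 1) = g + 1 then aa (g + 1) * vv (g + 1) x
          else aa g * vv g x) * _
        congr 1
        by_cases hb : q.lab (g + 1) = g + 1
        · rw [if_pos hb]
          have hh' : hgt q = g + 1 := by
            apply hgt_eq hc q (g + 1) (by omega) hb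
            rw [show g + 1 + 1 = g + 2 from rfl, hq2]
            omega
          simp only [TT, hh']
        · rw [if_neg hb]
          have hh' : hgt q = g := hgt_eq hc q g (by omega) hq1 hb
          simp only [TT, hh']
      · rw [if_neg hq, cupcap_apply_neg (fun h => hq h.1), mul_zero]
    rw [Finset.sum_congr rfl (fun q _ => hsum q), sum_agreeOff p g hg e12 F, e1,
      sum_range_neighbors F g L (by omega), if_pos (by omega : g + 1 ≤ L)]
    have hg1 : ((g : ℂ) + 1) ≠ 0 := by exact_mod_cast Nat.succ_ne_zero g
    have hg2 : ((g : ℂ) + 1 + 1) ≠ 0 := by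
      have : ((g + 2 : ℕ) : ℂ) ≠ 0 := by exact_mod_cast (by omega : g + 2 ≠ 0)
      have e : ((g + 2 : ℕ) : ℂ) = (g : ℂ) + 1 + 1 := by push_cast; ring
      rwa [e] at this
    have hpow : ((-1 : ℂ) ^ g) * ((-1 : ℂ) ^ g) = 1 := by
      rw [← mul_pow]; norm_num
    have hpow' : ((-1 : ℂ) ^ g) ≠ 0 := pow_ne_zero _ (by norm_num)
    have hF1 : F (g + 1) = (-1) ^ g / ((g : ℂ) + 1) ^ 2 * vv (g + 1) x := by
      show (if g + 1 = g + 1 then aa (g + 1) * vv (g + 1) x else aa g * vv g x) *
        (unknot 1 (g + 1) / unknot 1 g) = _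
      rw [if_pos rfl, unknot_one, unknot_one]
      unfold aa
      push_cast
      rw [pow_succ]
      field_simp
    have hF0 : (if 1 ≤ g then F (g - 1) else 0) = - ((-1) ^ g / ((g : ℂ) + 1) ^ 2 * vv g x) := by
      rcases Nat.eq_zero_or_pos g with h0 | h0
      · subst h0
        rw [if_neg (by omega)]
        simp [vv]
      · obtain ⟨k, rfl⟩ : ∃ k, g = k + 1 := ⟨g - 1, by omega⟩
        rw [if_pos (by omega)]
        show (if k + 1 - 1 = k + 1 + 1 then aa (k + 1 + 1) * vv (k + 1 + 1) x
          else aa (k + 1) * vv (k + 1) x) * (unknot 1 (k + 1 - 1) / unknot 1 (k + 1)) = _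
        rw [if_neg (by omega), Nat.add_sub_cancel, unknot_one, unknot_one]
        unfold aa
        have hk1 : ((k : ℂ) + 1) ≠ 0 := by exact_mod_cast Nat.succ_ne_zero k
        push_cast at hg1 hg2 ⊢
        rw [pow_succ]
        field_simp
    rw [hF1, hF0, ← sub_eq_add_neg, ← mul_sub, vv_diff]
    field_simp
  · rw [if_neg hh]
    apply Finset.sum_eq_zero
    intro q _
    rw [cupcap_apply_neg, mul_zero]
    rintro ⟨_, h2⟩
    rw [hlg, hlg2] at h2
    split_ifs at h2 <;> omega

/-- The intertwining relation for the generators at `A = 1`. -/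
lemma TT_gen (n : ℕ) (hn : N = n) (hc : c + 2 = N) (hL : N ≤ L + 1) {g : ℕ} (hg : g + 1 < n) :
    TT n N c L * (1 + cupcap N c L 1 g)
      = pm n (Equiv.swap ⟨g, by omega⟩ ⟨g + 1, hg⟩) * TT n N c L := by
  subst hn
  ext x p
  rw [Matrix.mul_add, Matrix.mul_one, Matrix.add_apply, TT_cupcap N hc hL hg, pm_mul_apply,
    Equiv.symm_swap]
  have h1 := one_le_hgt hc p
  simp only [TT]
  have hg1 : ((g : ℂ) + 1) ≠ 0 := by exact_mod_cast Nat.succ_ne_zero g
  have hg2 : ((g : ℂ) + 1 + 1) ≠ 0 := by
    have : ((g + 2 : ℕ) : ℂ) ≠ 0 := by exact_mod_cast (by omega : g + 2 ≠ 0)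
    have e : ((g + 2 : ℕ) : ℂ) = (g : ℂ) + 1 + 1 := by push_cast; ring
    rwa [e] at this
  by_cases hxg : (x : ℕ) = g
  · have hx : x = ⟨g, by omega⟩ := Fin.ext hxg
    rw [hx, Equiv.swap_apply_left]
    simp only [if_true]
    rw [if_neg (by omega : ¬ g = g + 1)]
    by_cases hh : hgt p = g
    · rw [if_pos (Or.inl hh), hh]
      have hg0 : (g : ℂ) ≠ 0 := by
        exact_mod_cast (by omega : g ≠ 0)
      unfold aa vv
      rw [if_neg (by omega), if_pos rfl, if_neg (by omega), if_neg (by omega)]
      field_simp
      ring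
    · by_cases hh' : hgt p = g + 1
      · rw [if_pos (Or.inr hh'), hh']
        unfold aa vv
        rw [if_pos (by omega), if_neg (by omega), if_pos rfl]
        push_cast
        rw [pow_succ]
        field_simp
        ring
      · rw [if_neg (by tauto)]
        unfold vv
        rcases Nat.lt_or_ge (hgt p) g with h2 | h2
        · rw [if_neg (by omega), if_neg (by omega), if_neg (by omega), if_neg (by omega)]
          simp
        · rw [if_pos (by omega), if_pos (by omega)]
          simp
  · by_cases hxg' : (x : ℕ) = g + 1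
    · have hx : x = ⟨g + 1, hg⟩ := Fin.ext hxg'
      rw [hx, Equiv.swap_apply_right]
      simp only [if_true]
      rw [if_neg (by omega : ¬ g + 1 = g)]
      by_cases hh : hgt p = g
      · rw [if_pos (Or.inl hh), hh]
        have hg0 : (g : ℂ) ≠ 0 := by
          exact_mod_cast (by omega : g ≠ 0)
        unfold aa vv
        rw [if_neg (by omega), if_neg (by omega), if_neg (by omega), if_pos rfl]
        field_simp
        ring
      · by_cases hh' : hgt p = g + 1
        · rw [if_pos (Or.inr hh'), hh']
          unfold aa vv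
          rw [if_neg (by omega), if_pos rfl, if_pos (by omega)]
          push_cast
          rw [pow_succ]
          field_simp
          ring
        · rw [if_neg (by tauto)]
          unfold vv
          rcases Nat.lt_or_ge (hgt p) g with h2 | h2
          · rw [if_neg (by omega), if_neg (by omega), if_neg (by omega), if_neg (by omega)]
            simp
          · rw [if_pos (by omega), if_pos (by omega)]
            simp
    · rw [Equiv.swap_apply_of_ne_of_ne (fun h => hxg (by rw [h])) (fun h => hxg' (by rw [h])),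
        if_neg hxg, if_neg hxg']
      simp

end Pool.Agent.H61.AMU
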