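import Mathlib
import Pool.Agent.H61.AMU.Seminormal

set_option autoImplicit false

/-! # Comparison of traces on paths and on functions -/

namespace Pool.Agent.H61.AMU

open Pool.Agent.H69.AMU Pool.Agent.H69.AMU.FusionPath Matrix

variable {N c L : ℕ}

/-- The path with initial ascent of length `h` and one descent. -/
def mkPath (hc : c + 2 = N) (hL : N ≤ L + 1) (h : ℕ) (h1 : 1 ≤ h) (h2 : h < N) :
    FusionPath N c L where
  label := fun k => ⟨if (k : ℕ) ≤ h then k else k - 2, by
    have := k.2
    split_ifs <;> omega⟩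
  start := by simp
  finish := by
    simp only [Fin.val_last]
    rw [if_neg (by omega)]
    omega
  step := by
    intro i
    simp only [Fin.val_succ, Fin.val_castSucc]
    have := i.2
    split_ifs <;> omega

lemma hgt_mkPath (hc : c + 2 = N) (hL : N ≤ L + 1) (h : ℕ) (h1 : 1 ≤ h) (h2 : h < N) :
    hgt (mkPath hc hL h h1 h2) = h := by
  apply hgt_eq hc _ h h2
  · rw [lab_of_le _ (by omega)]
    simp [mkPath]
  · rw [lab_of_le _ (by omega)]
    simp [mkPath]

lemma card_paths (hc : c + 2 = N) (hL : N ≤ L + 1) : Fintype.card (FusionPath N c L) + 1 = N := by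
  have e : FusionPath N c L ≃ Fin (N - 1) :=
    { toFun := fun p => ⟨hgt p - 1, by have := one_le_hgt hc p; have := hgt_lt hc p; omega⟩
      invFun := fun h => mkPath hc hL (h + 1) (by omega) (by have := h.2; omega)
      left_inv := fun p => by
        apply hgt_inj hc
        rw [hgt_mkPath]
        have := one_le_hgt hc p
        simp only
        omega
      right_inv := fun h => by
        apply Fin.ext
        simp only [hgt_mkPath]
        omega }
  rw [Fintype.card_congr e, Fintype.card_fin]
  omega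

lemma sum_vv (n h : ℕ) (hh : h < n) (w : ℕ → ℂ) :
    ∑ x ∈ Finset.range n, vv h x * w x = ∑ x ∈ Finset.range h, w x - h * w h := by
  obtain ⟨d, rfl⟩ : ∃ d, n = h + 1 + d := ⟨n - (h + 1), by omega⟩
  rw [Finset.sum_range_add, Finset.sum_range_succ]
  have e1 : ∑ x ∈ Finset.range h, vv h x * w x = ∑ x ∈ Finset.range h, w x := by
    apply Finset.sum_congr rfl
    intro x hx
    rw [vv, if_pos (Finset.mem_range.1 hx), one_mul]
  have e2 : ∑ x ∈ Finset.range d, vv h (h + 1 + x) * w (h + 1 + x) = 0 := by
    apply Finset.sum_eq_zero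
    intro x _
    rw [vv, if_neg (by omega), if_neg (by omega), zero_mul]
  rw [e1, e2, vv, if_neg (lt_irrefl h), if_pos rfl]
  ring

lemma sum_vv_vv (n h h' : ℕ) (hh : h < h') (hh' : h' < n) :
    ∑ x ∈ Finset.range n, vv h x * vv h' x = 0 := by
  rw [sum_vv n h (by omega)]
  have e1 : ∑ x ∈ Finset.range h, vv h' x = h := by
    rw [Finset.sum_congr rfl (g := fun _ => (1 : ℂ))]
    · simp
    · intro x hx
      rw [vv, if_pos (by have := Finset.mem_range.1 hx; omega)]
  rw [e1, vv, if_pos hh]
  ring

lemma sum_vv_self (n h : ℕ) (hh : h < n) :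
    ∑ x ∈ Finset.range n, vv h x * vv h x = (h : ℂ) * (h + 1) := by
  rw [sum_vv n h hh]
  have e1 : ∑ x ∈ Finset.range h, vv h x = h := by
    rw [Finset.sum_congr rfl (g := fun _ => (1 : ℂ))]
    · simp
    · intro x hx
      rw [vv, if_pos (Finset.mem_range.1 hx)]
  rw [e1, vv, if_neg (lt_irrefl h), if_pos rfl]
  ring

lemma sum_vv_one (n h : ℕ) (hh : h < n) : ∑ x ∈ Finset.range n, vv h x = 0 := by
  have := sum_vv n h hh (fun _ => 1)
  simp only [mul_one, Finset.sum_const, Finset.card_range, nsmul_eq_mul, sub_self] at this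
  exact this

/-- The intertwiner extended by the constant function. -/
noncomputable def SS (n N c L : ℕ) : Matrix (Fin n) (FusionPath N c L ⊕ Unit) ℂ :=
  Matrix.fromCols (TT n N c L) (Matrix.of (fun _ _ => 1))

/-- The diagonal entries of the Gram matrix. -/
noncomputable def gram (n N c L : ℕ) : FusionPath N c L ⊕ Unit → ℂ
  | Sum.inl p => aa (hgt p) ^ 2 * ((hgt p : ℂ) * (hgt p + 1))
  | Sum.inr _ => n

lemma SS_gram (n : ℕ) (hn : N = n) (hc : c + 2 = N) :
    (SS n N c L)ᵀ * SS n N c L = Matrix.diagonal (gram n N c L) := by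
  subst hn
  ext a b
  rw [Matrix.mul_apply]
  rcases a with p | u <;> rcases b with q | v
  · have e : ∑ x : Fin N, (SS N N c L)ᵀ (Sum.inl p) x * SS N N c L x (Sum.inl q)
        = aa (hgt p) * aa (hgt q) * ∑ x ∈ Finset.range N, vv (hgt p) x * vv (hgt q) x := by
      rw [← Fin.sum_univ_eq_sum_range (fun x => vv (hgt p) x * vv (hgt q) x) N, Finset.mul_sum]
      apply Finset.sum_congr rfl
      intro x _
      simp only [SS, Matrix.transpose_apply, Matrix.fromCols_apply_inl, TT]
      ring
    rw [e]
    by_cases hpq : p = q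
    · subst hpq
      rw [Matrix.diagonal_apply_eq, sum_vv_self N _ (hgt_lt hc p), gram]
      ring
    · have hne : Sum.inl p ≠ (Sum.inl q : FusionPath N c L ⊕ Unit) := fun h => hpq (Sum.inl.inj h)
      rw [Matrix.diagonal_apply_ne _ hne]
      have hne' : hgt p ≠ hgt q := fun h => hpq (hgt_inj hc h)
      rcases lt_or_gt_of_ne hne' with h | h
      · rw [sum_vv_vv N _ _ h (hgt_lt hc q), mul_zero]
      · have : ∑ x ∈ Finset.range N, vv (hgt p) x * vv (hgt q) x
            = ∑ x ∈ Finset.range N, vv (hgt q) x * vv (hgt p) x :=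
          Finset.sum_congr rfl fun x _ => mul_comm _ _
        rw [this, sum_vv_vv N _ _ h (hgt_lt hc p), mul_zero]
  · rw [Matrix.diagonal_apply_ne _ (by simp)]
    have e : ∑ x : Fin N, (SS N N c L)ᵀ (Sum.inl p) x * SS N N c L x (Sum.inr v)
        = aa (hgt p) * ∑ x ∈ Finset.range N, vv (hgt p) x := by
      rw [← Fin.sum_univ_eq_sum_range (fun x => vv (hgt p) x) N, Finset.mul_sum]
      apply Finset.sum_congr rfl
      intro x _
      simp only [SS, Matrix.transpose_apply, Matrix.fromCols_apply_inl, Matrix.fromCols_apply_inr, TT,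
        Matrix.of_apply]
      ring
    rw [e, sum_vv_one N _ (hgt_lt hc p), mul_zero]
  · rw [Matrix.diagonal_apply_ne _ (by simp)]
    have e : ∑ x : Fin N, (SS N N c L)ᵀ (Sum.inr u) x * SS N N c L x (Sum.inl q)
        = aa (hgt q) * ∑ x ∈ Finset.range N, vv (hgt q) x := by
      rw [← Fin.sum_univ_eq_sum_range (fun x => vv (hgt q) x) N, Finset.mul_sum]
      apply Finset.sum_congr rfl
      intro x _
      simp only [SS, Matrix.transpose_apply, Matrix.fromCols_apply_inl, Matrix.fromCols_apply_inr, TT,
        Matrix.of_apply]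
      ring
    rw [e, sum_vv_one N _ (hgt_lt hc q), mul_zero]
  · have huv : u = v := Subsingleton.elim _ _
    subst huv
    rw [Matrix.diagonal_apply_eq]
    simp [SS, gram, Matrix.transpose_apply]

lemma gram_ne_zero (n : ℕ) (hn : N = n) (hc : c + 2 = N) (a : FusionPath N c L ⊕ Unit) :
    gram n N c L a ≠ 0 := by
  rcases a with p | u
  · have h1 := one_le_hgt hc p
    have h2 : (hgt p : ℂ) ≠ 0 := by exact_mod_cast (by omega : hgt p ≠ 0)
    have h3 : ((hgt p : ℂ) + 1) ≠ 0 := by exact_mod_cast Nat.succ_ne_zero (hgt p)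
    have h4 : aa (hgt p) ≠ 0 := by
      unfold aa
      exact div_ne_zero (pow_ne_zero _ (by norm_num)) (mul_ne_zero h2 h3)
    exact mul_ne_zero (pow_ne_zero _ h4) (mul_ne_zero h2 h3)
  · show (n : ℂ) ≠ 0
    exact_mod_cast (by omega : n ≠ 0)

/-- Traces of powers of operators related by the intertwiner. -/
theorem trace_pow_of_intertwine (n : ℕ) (hn : N = n) (hc : c + 2 = N) (hL : N ≤ L + 1)
    (H : Matrix (FusionPath N c L) (FusionPath N c L) ℂ) (G : Matrix (Fin n) (Fin n) ℂ) (κ : ℂ)
    (h1 : TT n N c L * H = G * TT n N c L) (h2 : ∀ x, ∑ y, G x y = κ) (m : ℕ) :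
    trace (G ^ m) = trace (H ^ m) + κ ^ m := by
  classical
  set S := SS n N c L with hS
  set K : Matrix (FusionPath N c L ⊕ Unit) (FusionPath N c L ⊕ Unit) ℂ :=
    Matrix.fromBlocks H 0 0 (Matrix.of (fun _ _ => κ)) with hK
  have hSK : S * K = G * S := by
    ext x a
    rcases a with p | u
    · have e := congrFun (congrFun h1 x) p
      rw [Matrix.mul_apply, Matrix.mul_apply] at e
      rw [Matrix.mul_apply, Matrix.mul_apply, Fintype.sum_sum_type]
      simp only [hS, hK, SS, Matrix.fromCols_apply_inl, Matrix.fromCols_apply_inr,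
        Matrix.fromBlocks_apply₁₁, Matrix.fromBlocks_apply₂₁, Matrix.zero_apply, mul_zero,
        Finset.sum_const_zero, add_zero]
      exact e
    · rw [Matrix.mul_apply, Matrix.mul_apply, Fintype.sum_sum_type]
      simp only [hS, hK, SS, Matrix.fromCols_apply_inl, Matrix.fromCols_apply_inr,
        Matrix.fromBlocks_apply₁₂, Matrix.fromBlocks_apply₂₂, Matrix.zero_apply, mul_zero,
        Finset.sum_const_zero, zero_add, mul_one, Matrix.of_apply, h2 x]
      simp
  have hpow : ∀ j : ℕ, S * K ^ j = G ^ j * S := by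
    intro j
    induction j with
    | zero => simp
    | succ j ih => rw [pow_succ, ← Matrix.mul_assoc, ih, Matrix.mul_assoc, hSK, ← Matrix.mul_assoc,
        ← pow_succ]
  set S' := Matrix.diagonal (fun a => (gram n N c L a)⁻¹) * Sᵀ with hS'
  have hleft : S' * S = 1 := by
    rw [hS', Matrix.mul_assoc, hS, SS_gram n hn hc, Matrix.diagonal_mul_diagonal]
    have : (fun a => (gram n N c L a)⁻¹ * gram n N c L a) = fun _ => (1 : ℂ) := by
      funext a
      exact inv_mul_cancel₀ (gram_ne_zero n hn hc a)
    rw [this, Matrix.diagonal_one]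
  have hcard : Fintype.card (Fin n) = Fintype.card (FusionPath N c L ⊕ Unit) := by
    rw [Fintype.card_fin, Fintype.card_sum, Fintype.card_unit, card_paths hc hL, hn]
  have hright : S * S' = 1 := (Matrix.mul_eq_one_comm_of_card_eq _ _ _ hcard.symm).1 hleft
  calc trace (G ^ m) = trace (G ^ m * (S * S')) := by rw [hright, Matrix.mul_one]
    _ = trace (S' * (G ^ m * S)) := by
        rw [← Matrix.mul_assoc, Matrix.trace_mul_comm]
    _ = trace (K ^ m) := by rw [← hpow, ← Matrix.mul_assoc, hleft, Matrix.one_mul]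
    _ = trace (H ^ m) + κ ^ m := by
        rw [hK, Matrix.fromBlocks_diagonal_pow]
        have htr : ∀ (X : Matrix (FusionPath N c L) (FusionPath N c L) ℂ) (Y : Matrix Unit Unit ℂ),
            trace (Matrix.fromBlocks X 0 0 Y) = trace X + trace Y := by
          intro X Y
          simp [Matrix.trace, Fintype.sum_sum_type]
        rw [htr]
        congr 1
        have : ∀ j : ℕ, (Matrix.of (fun _ _ => κ) : Matrix Unit Unit ℂ) ^ j
            = Matrix.of (fun _ _ => κ ^ j) := by
          intro j
          induction j with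
          | zero =>
            ext a b
            simp
          | succ j ih =>
            rw [pow_succ, ih]
            ext a b
            simp [Matrix.mul_apply, pow_succ]
        have h3 := this m
        have h4 : trace ((Matrix.of (fun _ _ => κ) : Matrix Unit Unit ℂ) ^ m)
            = trace (Matrix.of (fun _ _ => κ ^ m) : Matrix Unit Unit ℂ) := by
          rw [← h3]
        rw [h4]
        simp [Matrix.trace]

end Pool.Agent.H61.AMU
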