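import Mathlib
import Pool.Agent.H69.AMU.OneLevel
import Pool.Agent.H61.AMU.Cross
import Pool.Agent.H61.AMU.Similar

set_option autoImplicit false

/-! # The derivative at `1` of the one-descent representation is the linking Laplacian -/

namespace Pool.Agent.H61.AMU

open Pool.Agent.H69.AMU Pool.Agent.H69.AMU.FusionPath Matrix Polynomial Filter Topology

section general
variable {n k : ℕ} {c : ℕ} {hk : 0 < k} {hkN : k ≤ n * k + 1}

lemma hasD_mul' {β γ : BraidGroup n}
    {D E : Matrix (FusionPath (n * k) c (n * k)) (FusionPath (n * k) c (n * k)) ℂ}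
    (hD : HasD c hk hkN β D) (hE : HasD c hk hkN γ E) :
    HasD c hk hkN (β * γ) (D * Mt c hk hkN γ 0 + Mt c hk hkN β 0 * E) := by
  intro p' p
  have h1 : ∀ q, HasDerivAt (fun t : ℝ => Mt c hk hkN β t p' q * Mt c hk hkN γ t q p)
      (D p' q * Mt c hk hkN γ 0 q p + Mt c hk hkN β 0 p' q * E q p) 0 := by
    intro q
    exact (hD p' q).mul (hE q p)
  have h2 := HasDerivAt.fun_sum (u := Finset.univ) (fun q _ => h1 q)
  have h3 : (∑ q, (D p' q * Mt c hk hkN γ 0 q p + Mt c hk hkN β 0 p' q * E q p))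
      = (D * Mt c hk hkN γ 0 + Mt c hk hkN β 0 * E) p' p := by
    rw [Finset.sum_add_distrib, Matrix.add_apply, Matrix.mul_apply, Matrix.mul_apply]
  rw [h3] at h2
  refine h2.congr_of_eventuallyEq (Eventually.of_forall fun t => ?_)
  show Mt c hk hkN (β * γ) t p' p = ∑ q, Mt c hk hkN β t p' q * Mt c hk hkN γ t q p
  rw [Mt_mul, Matrix.mul_apply]

lemma Mt_mul_inv (g : BraidGroup n) (t : ℝ) : Mt c hk hkN g t * Mt c hk hkN g⁻¹ t = 1 := by
  rw [← Mt_mul, mul_inv_cancel, Mt_one]

lemma Mt_inv_mul (g : BraidGroup n) (t : ℝ) : Mt c hk hkN g⁻¹ t * Mt c hk hkN g t = 1 := by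
  rw [← Mt_mul, inv_mul_cancel, Mt_one]

lemma hasD_conj (g : BraidGroup n) {β : BraidGroup n} (hβ : β ∈ pureBraid n)
    {D : Matrix (FusionPath (n * k) c (n * k)) (FusionPath (n * k) c (n * k)) ℂ}
    (hD : HasD c hk hkN β D) :
    HasD c hk hkN (g * β * g⁻¹) (Mt c hk hkN g 0 * D * Mt c hk hkN g⁻¹ 0) := by
  obtain ⟨E, hE⟩ := exists_hasD (c := c) (hk := hk) (hkN := hkN) g
  obtain ⟨E', hE'⟩ := exists_hasD (c := c) (hk := hk) (hkN := hkN) g⁻¹
  have h1 := hasD_mul' hE hE'
  rw [mul_inv_cancel] at h1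
  have h2 := h1.unique HasD.one
  have h3 := hasD_mul' (hasD_mul' hE hD) hE'
  have h4 : (E * Mt c hk hkN β 0 + Mt c hk hkN g 0 * D) * Mt c hk hkN g⁻¹ 0
      + Mt c hk hkN (g * β) 0 * E' = Mt c hk hkN g 0 * D * Mt c hk hkN g⁻¹ 0 := by
    rw [Mt_mul, Mt_zero c hk hkN hβ, Matrix.mul_one, Matrix.mul_one, Matrix.add_mul]
    have h5 : E * Mt c hk hkN g⁻¹ 0 + Mt c hk hkN g 0 * D * Mt c hk hkN g⁻¹ 0
        + Mt c hk hkN g 0 * E' = (E * Mt c hk hkN g⁻¹ 0 + Mt c hk hkN g 0 * E')
        + Mt c hk hkN g 0 * D * Mt c hk hkN g⁻¹ 0 := by abel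
    rw [h5, h2, zero_add]
  rw [h4] at h3
  exact h3

lemma eventually_admissible (N : ℕ) :
    ∀ᶠ t : ℝ in 𝓝 0, Admissible N N (Complex.exp (t * Complex.I)) := by
  have h1 : aeval (1 : ℂ) (Epoly N) ≠ 0 := ((admissible_iff N 1).1 admissible_one).2
  have hc : Continuous (fun t : ℝ => aeval (Complex.exp (t * Complex.I)) (Epoly N)) :=
    (Polynomial.continuous_aeval _).comp (by fun_prop)
  have h2 : aeval (Complex.exp (((0 : ℝ) : ℂ) * Complex.I)) (Epoly N) ≠ 0 := by simpa using h1
  filter_upwards [hc.continuousAt.eventually_ne h2] with t ht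
  exact (admissible_iff N _).2 ⟨Complex.exp_ne_zero _, ht⟩

end general

section one
variable {n c L : ℕ} {A : ℂ}

lemma colourIdem_one : colourIdem n 1 c L A = 1 := by
  unfold colourIdem
  have h : ∀ i : ℕ, colourProj (cupcap (n * 1) c L A) A 1 i = 1 := by
    intro i
    induction i with
    | zero => rfl
    | succ i ih =>
      show colourProj (cupcap (n * 1) c L A) A 1 i * jonesWenzl (cupcap (n * 1) c L A) A (i * 1) 1 = 1
      rw [ih, one_mul]
      rfl
  exact h n

lemma cable_one_gen (hk : 0 < 1) {g : ℕ} (hg : g < n - 1) :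
    cable n 1 hk (gen n g) = gen (n * 1) g := by
  rw [cable_gen hk hg]
  simp [blk, run]

lemma colRep_one_gen (hk : 0 < 1) (hA : Admissible (n * 1) L A) (hkL : 1 ≤ L + 1) {g : ℕ}
    (hg : g < n - 1) : (colRep n 1 c L hk A hA hkL (gen n g)).val
      = A • (1 : Matrix (FusionPath (n * 1) c L) (FusionPath (n * 1) c L) ℂ)
        + A⁻¹ • cupcap (n * 1) c L A g := by
  rw [colRep_val, colourIdem_one, Matrix.mul_one, sub_self, add_zero, cable_one_gen hk hg,
    braidRep_gen hA (by omega)]

lemma colRep_one_sq (hk : 0 < 1) (hA : Admissible (n * 1) L A) (hkL : 1 ≤ L + 1) {g : ℕ}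
    (hg : g < n - 1) : (colRep n 1 c L hk A hA hkL (gen n g * gen n g)).val
      = (A - A⁻¹ ^ 3) • (colRep n 1 c L hk A hA hkL (gen n g)).val
        + (A⁻¹ ^ 2) • (1 : Matrix (FusionPath (n * 1) c L) (FusionPath (n * 1) c L) ℂ) := by
  have hA0 := hA.1
  rw [map_mul, Units.val_mul, colRep_one_gen hk hA hkL hg]
  simp only [add_mul, mul_add, smul_mul_assoc, mul_smul_comm, one_mul, mul_one,
    cupcap_sq hA (by omega : g + 1 < n * 1), unknot]
  match_scalars
  · field_simp
    ring
  · field_simp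
    ring

end one

lemma hasDerivAt_cexp (a : ℂ) :
    HasDerivAt (fun t : ℝ => Complex.exp (t * (a * Complex.I))) (a * Complex.I) 0 := by
  have h1 : HasDerivAt (fun t : ℝ => ((t : ℂ)) * (a * Complex.I)) (1 * (a * Complex.I)) 0 :=
    (Complex.ofRealCLM.hasDerivAt (x := (0 : ℝ))).mul_const _
  have h2 := h1.cexp
  simp only [Complex.ofReal_zero, zero_mul, Complex.exp_zero, one_mul] at h2
  exact h2

section deriv
variable {n c : ℕ} {hk : 0 < 1} {hkN : 1 ≤ n * 1 + 1}

lemma Mt_sq {g : ℕ} (hg : g < n - 1) (t : ℝ)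
    (h : Admissible (n * 1) (n * 1) (Complex.exp (t * Complex.I))) :
    Mt c hk hkN (gen n g * gen n g) t
      = (Complex.exp (t * Complex.I) - (Complex.exp (t * Complex.I))⁻¹ ^ 3) • Mt c hk hkN (gen n g) t
        + ((Complex.exp (t * Complex.I))⁻¹ ^ 2) •
          (1 : Matrix (FusionPath (n * 1) c (n * 1)) (FusionPath (n * 1) c (n * 1)) ℂ) := by
  unfold Mt
  rw [dif_pos h, dif_pos h, colRep_one_sq hk h hkN hg]

lemma Mt_gen_zero {g : ℕ} (hg : g < n - 1) :
    Mt c hk hkN (gen n g) 0 = 1 + cupcap (n * 1) c (n * 1) 1 g := by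
  have h : Admissible (n * 1) (n * 1) (Complex.exp ((0 : ℝ) * Complex.I)) := by
    simpa using (admissible_one (N := n * 1))
  unfold Mt
  rw [dif_pos h, colRep_one_gen hk h hkN hg]
  simp

/-- The derivative of the square of a generator. -/
lemma hasD_sq {g : ℕ} (hg : g < n - 1) :
    HasD c hk hkN (gen n g * gen n g)
      (Complex.I • ((4 : ℂ) • Mt c hk hkN (gen n g) 0 - (2 : ℂ) • 1)) := by
  obtain ⟨E, hE⟩ := exists_hasD (c := c) (hk := hk) (hkN := hkN) (gen n g)
  intro p' p
  have h1 := hasDerivAt_cexp 1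
  have h3 := hasDerivAt_cexp (-3)
  have h2 := hasDerivAt_cexp (-2)
  have h4 := ((h1.sub h3).mul (hE p' p)).add
    (h2.mul_const ((1 : Matrix (FusionPath (n * 1) c (n * 1)) (FusionPath (n * 1) c (n * 1)) ℂ) p' p))
  have e : (Complex.I • ((4 : ℂ) • Mt c hk hkN (gen n g) 0 - (2 : ℂ) • 1)) p' p
      = (1 * Complex.I - -3 * Complex.I) * Mt c hk hkN (gen n g) 0 p' p
        + ((fun t : ℝ => Complex.exp (t * (1 * Complex.I))) 0
          - (fun t : ℝ => Complex.exp (t * (-3 * Complex.I))) 0) * E p' p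
        + -2 * Complex.I * (1 : Matrix (FusionPath (n * 1) c (n * 1))
          (FusionPath (n * 1) c (n * 1)) ℂ) p' p := by
    simp only [Matrix.smul_apply, Matrix.sub_apply, smul_eq_mul, Complex.ofReal_zero, zero_mul,
      Complex.exp_zero]
    ring
  rw [e]
  refine h4.congr_of_eventuallyEq ?_
  filter_upwards [eventually_admissible (n * 1)] with t ht
  rw [Mt_sq hg t ht]
  simp only [Matrix.add_apply, Matrix.smul_apply, smul_eq_mul, Pi.add_apply, Pi.mul_apply,
    Pi.sub_apply]
  have e1 : Complex.exp (t * (1 * Complex.I)) = Complex.exp (t * Complex.I) := by rw [one_mul]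
  have e3 : Complex.exp (t * (-3 * Complex.I)) = (Complex.exp (t * Complex.I))⁻¹ ^ 3 := by
    rw [← Complex.exp_neg, ← Complex.exp_nat_mul]
    congr 1
    push_cast
    ring
  have e2 : Complex.exp (t * (-2 * Complex.I)) = (Complex.exp (t * Complex.I))⁻¹ ^ 2 := by
    rw [← Complex.exp_neg, ← Complex.exp_nat_mul]
    congr 1
    push_cast
    ring
  rw [e1, e2, e3]

end deriv

/-! ### The Laplacian -/

/-- The operator attached to a matrix of crossing numbers. -/
noncomputable def gmat (n : ℕ) (C : Matrix (Fin n) (Fin n) ℤ) : Matrix (Fin n) (Fin n) ℂ :=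
  (((∑ p, ∑ q, C p q : ℤ) : ℂ) / 2) • (1 : Matrix (Fin n) (Fin n) ℂ)
    - (2 : ℂ) • (lapl n C).map (Int.cast : ℤ → ℂ)

lemma lapl_add {R : Type*} [CommRing R] (n : ℕ) (C E : Matrix (Fin n) (Fin n) R) :
    lapl n (C + E) = lapl n C + lapl n E := by
  ext p q
  simp only [lapl, Matrix.sub_apply, Matrix.add_apply, Matrix.diagonal_apply]
  split_ifs
  · rw [Finset.sum_add_distrib]
    ring
  · ring

lemma gmat_add (n : ℕ) (C E : Matrix (Fin n) (Fin n) ℤ) :
    gmat n (C + E) = gmat n C + gmat n E := by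
  ext p q
  simp only [gmat, Matrix.sub_apply, Matrix.add_apply, Matrix.smul_apply, smul_eq_mul, lapl_add,
    Matrix.map_apply]
  have h : (∑ p, ∑ q, (C p q + E p q)) = (∑ p, ∑ q, C p q) + ∑ p, ∑ q, E p q := by
    rw [← Finset.sum_add_distrib]
    exact Finset.sum_congr rfl fun p _ => Finset.sum_add_distrib
  rw [h]
  push_cast
  ring

lemma gmat_zero (n : ℕ) : gmat n 0 = 0 := by
  have h := gmat_add n 0 0
  rw [add_zero] at h
  have h2 : gmat n 0 + 0 = gmat n 0 + gmat n 0 := by rw [add_zero]; exact h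
  exact (add_left_cancel h2).symm

lemma gmat_neg (n : ℕ) (C : Matrix (Fin n) (Fin n) ℤ) : gmat n (-C) = -gmat n C := by
  have h := gmat_add n C (-C)
  rw [add_neg_cancel, gmat_zero] at h
  exact eq_neg_of_add_eq_zero_right h.symm

lemma mul_pm_apply {ι : Type*} (n : ℕ) (w : Equiv.Perm (Fin n)) (M : Matrix ι (Fin n) ℂ) (i : ι)
    (y : Fin n) : (M * pm n w) i y = M i (w y) := by
  rw [Matrix.mul_apply, Finset.sum_eq_single (w y)]
  · simp [pm]
  · intro z _ hz
    simp [pm, hz]
  · intro h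
    exact absurd (Finset.mem_univ _) h

lemma gmat_submatrix (n : ℕ) (w : Equiv.Perm (Fin n)) (C : Matrix (Fin n) (Fin n) ℤ) :
    gmat n (C.submatrix w.symm w.symm) = pm n w * gmat n C * pm n w⁻¹ := by
  ext p q
  rw [mul_pm_apply, pm_mul_apply]
  simp only [gmat, Matrix.sub_apply, Matrix.smul_apply, smul_eq_mul, Matrix.map_apply, lapl,
    Matrix.submatrix_apply, Matrix.diagonal_apply, Matrix.one_apply]
  have h0 : ∀ f : Fin n → ℤ, ∑ x, f (w.symm x) = ∑ x, f x := fun f => Equiv.sum_comp w.symm f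
  have h1 : (∑ p, ∑ q, C (w.symm p) (w.symm q)) = ∑ p, ∑ q, C p q := by
    rw [← h0 (fun p => ∑ q, C p q)]
    exact Finset.sum_congr rfl fun p _ => h0 (fun q => C (w.symm p) q)
  have h2 : (∑ x, C (w.symm p) (w.symm x)) = ∑ x, C (w.symm p) x := h0 (fun q => C (w.symm p) q)
  have h3 : (w⁻¹ : Equiv.Perm (Fin n)) q = w.symm q := rfl
  rw [h1, h2, h3]
  have h4 : (w.symm p = w.symm q) = (p = q) := by
    rw [EmbeddingLike.apply_eq_iff_eq]
  simp only [h4]

lemma lapl_pair (n : ℕ) (a b : Fin n) (hab : a ≠ b) (p q : Fin n) :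
    lapl n (pairMat n a b) p q = (if p = q then 1 else 0) - (if p = Equiv.swap a b q then 1 else 0) := by
  have hrow : ∑ q, pairMat n a b p q = (if p = a then 1 else 0) + (if p = b then 1 else 0) := by
    simp only [pairMat, Matrix.add_apply, Matrix.single_apply]
    rw [Finset.sum_add_distrib]
    congr 1
    · by_cases h : p = a
      · subst h; simp
      · simp [h, Ne.symm h]
    · by_cases h : p = b
      · subst h; simp
      · simp [h, Ne.symm h]
  rw [lapl, Matrix.sub_apply, Matrix.diagonal_apply, hrow]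
  simp only [pairMat, Matrix.add_apply, Matrix.single_apply]
  by_cases hqa : q = a
  · subst hqa
    rw [Equiv.swap_apply_left]
    by_cases hp : p = q
    · subst hp
      simp [hab, Ne.symm hab]
    · by_cases hpb : p = b
      · subst hpb
        simp [hp, Ne.symm hp]
      · simp [hp, hpb, Ne.symm hp, Ne.symm hpb]
  · by_cases hqb : q = b
    · subst hqb
      rw [Equiv.swap_apply_right]
      by_cases hp : p = q
      · subst hp
        simp [hqa, Ne.symm hqa]
      · by_cases hpa : p = a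
        · subst hpa
          simp [hp, Ne.symm hp]
        · simp [hp, hpa, Ne.symm hp, Ne.symm hpa]
    · rw [Equiv.swap_apply_of_ne_of_ne hqa hqb]
      by_cases hp : p = q
      · subst hp
        simp [hqa, hqb, Ne.symm hqa, Ne.symm hqb]
      · simp [hp, Ne.symm hqa, Ne.symm hqb]

lemma gmat_sq (n : ℕ) (a b : Fin n) (hab : a ≠ b) :
    gmat n (pairMat n a b + pairMat n a b) = (4 : ℂ) • pm n (Equiv.swap a b) - (2 : ℂ) • 1 := by
  have hsum : (∑ p, ∑ q, (pairMat n a b + pairMat n a b) p q) = 4 := by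
    simp only [pairMat, Matrix.add_apply, Finset.sum_add_distrib]
    simp only [Matrix.single_apply]
    have h1 : ∀ x y : Fin n, (∑ p : Fin n, ∑ q : Fin n, if x = p ∧ y = q then (1 : ℤ) else 0) = 1 := by
      intro x y
      rw [Finset.sum_eq_single x]
      · simp
      · intro z _ hz
        simp [Ne.symm hz]
      · intro h
        exact absurd (Finset.mem_univ _) h
    rw [h1, h1]
    norm_num
  ext p q
  simp only [gmat, Matrix.sub_apply, Matrix.smul_apply, smul_eq_mul, Matrix.map_apply, lapl_add,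
    Matrix.add_apply, Matrix.one_apply, pm, lapl_pair n a b hab]
  have h2 : (∑ x, ∑ x_1, (pairMat n a b x x_1 + pairMat n a b x x_1)) = 4 := hsum
  rw [h2]
  by_cases h1 : p = q
  · by_cases h3 : p = Equiv.swap a b q
    · rw [if_pos h1, if_pos h3, if_pos h1, if_pos h3]
      push_cast
      ring
    · rw [if_pos h1, if_neg h3, if_pos h1, if_neg h3]
      push_cast
      ring
  · by_cases h3 : p = Equiv.swap a b q
    · rw [if_neg h1, if_pos h3, if_neg h1, if_pos h3]
      push_cast
      ring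
    · rw [if_neg h1, if_neg h3, if_neg h1, if_neg h3]
      push_cast
      ring

/-! ### The intertwining relation -/

section main
variable {n : ℕ} {hk : 0 < 1} {hkN : 1 ≤ n * 1 + 1}

/-- At `A = 1` the representation is intertwined with the permutation representation. -/
lemma TT_Mt (hn : 2 ≤ n) (β : BraidGroup n) :
    TT n (n * 1) (n - 2) (n * 1) * Mt (n - 2) hk hkN β 0
      = pm n (permHom n β) * TT n (n * 1) (n - 2) (n * 1) := by
  have hmem : β ∈ Subgroup.closure (gen n '' Set.Iio (n - 1)) := by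
    rw [closure_gen]; exact Subgroup.mem_top β
  induction hmem using Subgroup.closure_induction with
  | mem x hx =>
    obtain ⟨g, hg, rfl⟩ := hx
    have hg' : g < n - 1 := hg
    rw [Mt_gen_zero hg', permHom_gen hg']
    exact TT_gen n (by omega) (by omega) (by omega) (by omega)
  | one => rw [Mt_one, map_one, pm_one, Matrix.one_mul, Matrix.mul_one]
  | mul x y _ _ hx hy =>
    rw [Mt_mul, map_mul, pm_mul, ← Matrix.mul_assoc, hx, Matrix.mul_assoc, hy, Matrix.mul_assoc]
  | inv x _ hx =>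
    have h1 : pm n (permHom n x⁻¹) * pm n (permHom n x) = 1 := by
      rw [← pm_mul, ← map_mul, inv_mul_cancel, map_one, pm_one]
    calc TT n (n * 1) (n - 2) (n * 1) * Mt (n - 2) hk hkN x⁻¹ 0
        = (pm n (permHom n x⁻¹) * pm n (permHom n x)) * TT n (n * 1) (n - 2) (n * 1)
            * Mt (n - 2) hk hkN x⁻¹ 0 := by rw [h1, Matrix.one_mul]
      _ = pm n (permHom n x⁻¹) * (pm n (permHom n x) * TT n (n * 1) (n - 2) (n * 1))
            * Mt (n - 2) hk hkN x⁻¹ 0 := by rw [Matrix.mul_assoc (pm n (permHom n x⁻¹))]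
      _ = pm n (permHom n x⁻¹) * TT n (n * 1) (n - 2) (n * 1) *
            (Mt (n - 2) hk hkN x 0 * Mt (n - 2) hk hkN x⁻¹ 0) := by
          rw [← hx]; simp only [Matrix.mul_assoc]
      _ = pm n (permHom n x⁻¹) * TT n (n * 1) (n - 2) (n * 1) := by
          rw [Mt_mul_inv, Matrix.mul_one]

/-- The derivative at `A = 1` of a pure braid on `V(1, ..., 1, n - 2)` is given by the Laplacian of
its matrix of linking numbers. -/
theorem exists_hasD_intertwine (hn : 2 ≤ n) (β : BraidGroup n) (hβ : β ∈ pureBraid n) :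
    ∃ D, HasD (n - 2) hk hkN β D ∧
      TT n (n * 1) (n - 2) (n * 1) * D
        = (Complex.I • gmat n (crossing n β)) * TT n (n * 1) (n - 2) (n * 1) := by
  let K : Subgroup (BraidGroup n) :=
    { carrier := {x | x ∈ pureBraid n ∧ ∃ D, HasD (n - 2) hk hkN x D ∧
        TT n (n * 1) (n - 2) (n * 1) * D
          = (Complex.I • gmat n (crossing n x)) * TT n (n * 1) (n - 2) (n * 1)}
      mul_mem' := by
        rintro x y ⟨hx, D, hD, hD'⟩ ⟨hy, E, hE, hE'⟩
        refine ⟨mul_mem hx hy, D + E, hD.mul hx hy hE, ?_⟩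
        have hp : permHom n x = 1 := hx
        rw [crossing_mul, hp, Matrix.mul_add, hD', hE', gmat_add, smul_add, Matrix.add_mul]
        rfl
      one_mem' := by
        refine ⟨one_mem _, 0, HasD.one, ?_⟩
        rw [crossing_one, gmat_zero, smul_zero, Matrix.mul_zero, Matrix.zero_mul]
      inv_mem' := by
        rintro x ⟨hx, D, hD, hD'⟩
        refine ⟨inv_mem hx, -D, hD.inv hx, ?_⟩
        have hp : permHom n x = 1 := hx
        have h1 : crossing n x⁻¹ = - crossing n x := by
          have h2 := crossing_mul n x x⁻¹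
          rw [mul_inv_cancel, crossing_one, hp] at h2
          have h3 : crossing n x + crossing n x⁻¹ = 0 := h2.symm
          exact eq_neg_of_add_eq_zero_right h3
        rw [h1, gmat_neg, Matrix.mul_neg, hD', smul_neg, Matrix.neg_mul] }
  have hnormal : K.Normal := by
    constructor
    rintro x ⟨hx, D, hD, hD'⟩ g
    refine ⟨(inferInstance : (pureBraid n).Normal).conj_mem x hx g, _, hasD_conj g hx hD, ?_⟩
    have h1 : crossing n (g * x * g⁻¹) = (crossing n x).submatrix (permHom n g).symm (permHom n g).symm := by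
      have hp : permHom n x = 1 := hx
      have h2 := crossing_mul n g g⁻¹
      rw [mul_inv_cancel, crossing_one] at h2
      rw [crossing_mul, crossing_mul, map_mul, hp, mul_one]
      rw [add_right_comm, ← h2, zero_add]
    rw [h1, gmat_submatrix, ← Matrix.mul_assoc, ← Matrix.mul_assoc, TT_Mt hn g,
      Matrix.mul_assoc (pm n (permHom n g)), hD']
    rw [Matrix.mul_assoc (pm n (permHom n g)), Matrix.mul_assoc (Complex.I • gmat n (crossing n x)),
      TT_Mt hn g⁻¹, map_inv]
    simp only [Matrix.mul_assoc, Matrix.smul_mul, Matrix.mul_smul]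
  have hle : pureBraid n ≤ K := by
    rw [pureBraid_eq]
    apply Subgroup.normalClosure_le_normal
    rintro _ ⟨g, hg, rfl⟩
    refine ⟨?_, _, hasD_sq hg, ?_⟩
    · show permHom n (gen n g * gen n g) = 1
      rw [map_mul, permHom_gen hg, Equiv.swap_mul_self]
    · have hne : (⟨g, by omega⟩ : Fin n) ≠ ⟨g + 1, by omega⟩ := by simp [Fin.ext_iff]
      have hc : crossing n (gen n g * gen n g)
          = pairMat n ⟨g, by omega⟩ ⟨g + 1, by omega⟩ + pairMat n ⟨g, by omega⟩ ⟨g + 1, by omega⟩ := by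
        rw [crossing_mul, crossing_gen n hg, pairMat_submatrix, permHom_gen hg,
          Equiv.swap_apply_left, Equiv.swap_apply_right, pairMat_symm n ⟨g + 1, by omega⟩]
      rw [hc, gmat_sq n _ _ hne]
      have h1 := TT_Mt (hk := hk) (hkN := hkN) hn (gen n g)
      rw [permHom_gen hg] at h1
      rw [Matrix.mul_smul, Matrix.mul_sub, Matrix.mul_smul, Matrix.mul_smul, Matrix.mul_one, h1,
        Matrix.smul_mul, Matrix.sub_mul, Matrix.smul_mul, Matrix.smul_mul, Matrix.one_mul]
  exact (hle hβ).2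

end main

end Pool.Agent.H61.AMU
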