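import Mathlib
import Pool.Agent.H69.AMU.OneLevel
import Pool.Agent.H61.AMU.Deriv2

set_option autoImplicit false

/-! # Moments and traces -/

namespace Pool.Agent.H61.AMU

open Pool.Agent.H69.AMU Matrix Polynomial Filter Topology

/-- Equality of all moments of finitely supported weights implies equality on all functions. -/
lemma moment_ext {ι κ : Type*} (s : Finset ι) (t : Finset κ) (x : ι → ℂ) (w : ℂ) (b y : κ → ℂ)
    (h : ∀ m : ℕ, ∑ i ∈ s, x i ^ m = w ^ m + ∑ j ∈ t, b j * y j ^ m) (f : ℂ → ℂ) :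
    ∑ i ∈ s, f (x i) = f w + ∑ j ∈ t, b j * f (y j) := by
  classical
  have hpoly : ∀ p : ℂ[X], ∑ i ∈ s, p.eval (x i) = p.eval w + ∑ j ∈ t, b j * p.eval (y j) := by
    intro p
    have e : ∀ z, p.eval z = ∑ m ∈ Finset.range (p.natDegree + 1), p.coeff m * z ^ m :=
      fun z => Polynomial.eval_eq_sum_range z
    calc ∑ i ∈ s, p.eval (x i)
        = ∑ i ∈ s, ∑ m ∈ Finset.range (p.natDegree + 1), p.coeff m * x i ^ m :=
          Finset.sum_congr rfl fun i _ => e (x i)
      _ = ∑ m ∈ Finset.range (p.natDegree + 1), ∑ i ∈ s, p.coeff m * x i ^ m := Finset.sum_comm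
      _ = ∑ m ∈ Finset.range (p.natDegree + 1), p.coeff m * (w ^ m + ∑ j ∈ t, b j * y j ^ m) := by
          apply Finset.sum_congr rfl
          intro m _
          rw [← Finset.mul_sum, h m]
      _ = p.eval w + ∑ m ∈ Finset.range (p.natDegree + 1), ∑ j ∈ t, b j * (p.coeff m * y j ^ m) := by
          rw [e w, ← Finset.sum_add_distrib]
          apply Finset.sum_congr rfl
          intro m _
          rw [mul_add, Finset.mul_sum]
          congr 1
          apply Finset.sum_congr rfl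
          intro j _
          ring
      _ = p.eval w + ∑ j ∈ t, b j * p.eval (y j) := by
          rw [Finset.sum_comm]
          congr 1
          apply Finset.sum_congr rfl
          intro j _
          rw [e (y j), Finset.mul_sum]
  let S : Finset ℂ := insert w (s.image x ∪ t.image y)
  let p : ℂ[X] := Lagrange.interpolate S id f
  have hp : ∀ z ∈ S, p.eval z = f z := by
    intro z hz
    have h1 := Lagrange.eval_interpolate_at_node (s := S) (v := (id : ℂ → ℂ)) f
      (Set.injOn_id _) hz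
    exact h1
  have h1 := hpoly p
  have e1 : ∑ i ∈ s, p.eval (x i) = ∑ i ∈ s, f (x i) := by
    apply Finset.sum_congr rfl
    intro i hi
    exact hp _ (Finset.mem_insert_of_mem (Finset.mem_union_left _ (Finset.mem_image_of_mem x hi)))
  have e2 : ∑ j ∈ t, b j * p.eval (y j) = ∑ j ∈ t, b j * f (y j) := by
    apply Finset.sum_congr rfl
    intro j hj
    rw [hp _ (Finset.mem_insert_of_mem (Finset.mem_union_right _ (Finset.mem_image_of_mem y hj)))]
  rw [e1, e2, hp w (Finset.mem_insert_self _ _)] at h1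
  exact h1

section family

variable {ι : Type} [Fintype ι] [DecidableEq ι] {F : Family ι}

lemma q_one_expand (Q : ℕ → ℤ[X]) {z : ℂ} (hz : z ≠ 0) :
    F.q Q 1 z = ∑ i ∈ Finset.range ((Q 1).natDegree + 1),
      ((Q 1).coeff i : ℂ) * z ^ ((i : ℤ) - F.a) := by
  rw [Family.q, mul_one, aeval_eq_sum_range, Finset.mul_sum]
  apply Finset.sum_congr rfl
  intro i _
  rw [zsmul_eq_mul, zpow_sub₀ hz, zpow_natCast, zpow_natCast, div_eq_mul_inv]
  ring

/-- The traces of polynomials in the family along the circle. -/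
lemma trace_aeval [Nonempty ι] (h1 : aeval 1 F.E ≠ (0 : ℂ)) (hM : F.M 1 = 1) {Q : ℕ → ℤ[X]}
    (hQ : ∀ j, trace (F.P ^ j) = F.E ^ j * Q j)
    (hQ2 : ∀ j p : ℕ, p.Prime → 2 * Fintype.card ι < p → Q (j * p) = expand ℤ p (Q j))
    (s : ℝ) (hE : aeval (Complex.exp (s * Complex.I)) F.E ≠ 0) (p : ℂ[X]) :
    trace (aeval (F.M (Complex.exp (s * Complex.I))) p)
      = ∑ i ∈ Finset.range ((Q 1).natDegree + 1),
        ((Q 1).coeff i : ℂ) * p.eval (Complex.exp (s * Complex.I) ^ ((i : ℤ) - F.a)) := by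
  set z := Complex.exp (s * Complex.I) with hz
  have hz0 : z ≠ 0 := Complex.exp_ne_zero _
  have hpow : ∀ j : ℕ, trace ((F.M z) ^ j) = ∑ i ∈ Finset.range ((Q 1).natDegree + 1),
      ((Q 1).coeff i : ℂ) * (z ^ ((i : ℤ) - F.a)) ^ j := by
    intro j
    rw [Family.trace_eq_q hQ hz0 hE, hz, Family.q_eq_q_one h1 hM hQ hQ2 s j, ← hz,
      q_one_expand Q (pow_ne_zero _ hz0)]
    apply Finset.sum_congr rfl
    intro i _
    congr 1
    rw [← zpow_natCast, ← _root_.zpow_mul, ← zpow_natCast, ← _root_.zpow_mul, mul_comm]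
  rw [aeval_eq_sum_range, trace_sum]
  calc ∑ j ∈ Finset.range (p.natDegree + 1), trace (p.coeff j • (F.M z) ^ j)
      = ∑ j ∈ Finset.range (p.natDegree + 1), ∑ i ∈ Finset.range ((Q 1).natDegree + 1),
          ((Q 1).coeff i : ℂ) * (p.coeff j * (z ^ ((i : ℤ) - F.a)) ^ j) := by
        apply Finset.sum_congr rfl
        intro j _
        rw [trace_smul, hpow, smul_eq_mul, Finset.mul_sum]
        apply Finset.sum_congr rfl
        intro i _
        ring
    _ = ∑ i ∈ Finset.range ((Q 1).natDegree + 1), ((Q 1).coeff i : ℂ) *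
          p.eval (z ^ ((i : ℤ) - F.a)) := by
        rw [Finset.sum_comm]
        apply Finset.sum_congr rfl
        intro i _
        rw [Polynomial.eval_eq_sum_range, Finset.mul_sum]

attribute [local instance] Matrix.linftyOpNormedRing Matrix.linftyOpNormedAlgebra
  Matrix.linfty_opNormOneClass

/-- The traces of the powers of the derivative. -/
theorem trace_deriv_pow [Nonempty ι] (h1 : aeval 1 F.E ≠ (0 : ℂ)) (hM : F.M 1 = 1) {Q : ℕ → ℤ[X]}
    (hQ : ∀ j, trace (F.P ^ j) = F.E ^ j * Q j)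
    (hQ2 : ∀ j p : ℕ, p.Prime → 2 * Fintype.card ι < p → Q (j * p) = expand ℤ p (Q j))
    (D : Matrix ι ι ℂ) (hD : ∀ i j, HasDerivAt (fun t : ℝ => F.curve t i j) (D i j) 0) (m : ℕ) :
    trace (D ^ m) = ∑ i ∈ Finset.range ((Q 1).natDegree + 1),
      ((Q 1).coeff i : ℂ) * (Complex.I * ((i : ℂ) - F.a)) ^ m := by
  obtain ⟨D', hD', hD''⟩ := F.hasDerivAt_curve h1
  have hDD : D' = D := by
    ext i j
    exact (hD'' i j).unique (hD i j)
  rw [hDD] at hD'
  have h0 := F.curve_zero hM
  -- the slope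
  have hs := hD'.tendsto_slope_zero
  simp only [zero_add, h0] at hs
  have hs2 : Tendsto (fun t : ℝ => trace ((t⁻¹ • (F.curve t - 1)) ^ m)) (𝓝[≠] 0) (𝓝 (trace (D ^ m))) := by
    have hcont : Continuous (fun A : Matrix ι ι ℂ => trace (A ^ m)) := by
      have h3 : Continuous (fun A : Matrix ι ι ℂ => A ^ m) := continuous_pow m
      have h4 : Continuous (fun A : Matrix ι ι ℂ => trace A) := by
        unfold Matrix.trace
        exact continuous_finsetSum _ fun i _ => (continuous_apply i).comp (continuous_apply i)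
      exact h4.comp h3
    exact (hcont.tendsto D).comp hs
  have hr : Tendsto (fun t : ℝ => ∑ i ∈ Finset.range ((Q 1).natDegree + 1),
      ((Q 1).coeff i : ℂ) * (t⁻¹ • (Complex.exp (t * ((((i : ℂ) - F.a)) * Complex.I)) - 1)) ^ m)
      (𝓝[≠] 0) (𝓝 (∑ i ∈ Finset.range ((Q 1).natDegree + 1),
      ((Q 1).coeff i : ℂ) * (((i : ℂ) - F.a) * Complex.I) ^ m)) := by
    apply tendsto_finsetSum
    intro i _
    apply Tendsto.const_mul
    apply Tendsto.pow
    have h3 := (hasDerivAt_cexp ((i : ℂ) - F.a)).tendsto_slope_zero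
    simp only [zero_add, Complex.ofReal_zero, zero_mul, Complex.exp_zero] at h3
    exact h3
  have hne : ∀ᶠ t : ℝ in 𝓝[≠] 0, aeval (Complex.exp (t * Complex.I)) F.E ≠ 0 := by
    apply nhdsWithin_le_nhds
    have hc : Continuous (fun t : ℝ => aeval (Complex.exp (t * Complex.I)) F.E) :=
      (Polynomial.continuous_aeval F.E).comp (by fun_prop)
    have h2 : aeval (Complex.exp (((0 : ℝ) : ℂ) * Complex.I)) F.E ≠ 0 := by simpa using h1
    exact hc.continuousAt.eventually_ne h2
  have heq : (fun t : ℝ => trace ((t⁻¹ • (F.curve t - 1)) ^ m)) =ᶠ[𝓝[≠] 0]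
      (fun t : ℝ => ∑ i ∈ Finset.range ((Q 1).natDegree + 1),
      ((Q 1).coeff i : ℂ) * (t⁻¹ • (Complex.exp (t * ((((i : ℂ) - F.a)) * Complex.I)) - 1)) ^ m) := by
    filter_upwards [hne] with t ht
    have h3 := trace_aeval h1 hM hQ hQ2 t ht ((X - 1) ^ m)
    have h4 : aeval (F.M (Complex.exp (t * Complex.I))) ((X - 1 : ℂ[X]) ^ m) = (F.curve t - 1) ^ m := by
      rw [map_pow, map_sub, aeval_X, map_one]
      rfl
    rw [h4] at h3
    have h5 : trace ((t⁻¹ • (F.curve t - 1)) ^ m) = ((t : ℂ)⁻¹) ^ m * trace ((F.curve t - 1) ^ m) := by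
      rw [_root_.smul_pow, trace_smul]
      rw [Complex.real_smul]
      push_cast
      rfl
    rw [h5, h3, Finset.mul_sum]
    apply Finset.sum_congr rfl
    intro i _
    have h6 : Complex.exp (t * Complex.I) ^ ((i : ℤ) - F.a)
        = Complex.exp (t * (((i : ℂ) - F.a) * Complex.I)) := by
      rw [← Complex.exp_int_mul]
      congr 1
      push_cast
      ring
    rw [h6, eval_pow, eval_sub, eval_X, eval_one, Complex.real_smul, mul_pow]
    push_cast
    ring
  have hfin := tendsto_nhds_unique (hs2.congr' heq) hr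
  rw [hfin]
  apply Finset.sum_congr rfl
  intro i _
  rw [mul_comm Complex.I]

end family

/-! ### The spectral theorem for the Laplacian -/

lemma lapl_isHermitian (n : ℕ) (C : Matrix (Fin n) (Fin n) ℤ) (hC : Cᵀ = C) :
    ((lapl n C).map (Int.cast : ℤ → ℂ)).IsHermitian := by
  have h : (lapl n C)ᵀ = lapl n C := by
    rw [lapl, Matrix.transpose_sub, Matrix.diagonal_transpose, hC]
  ext p q
  rw [Matrix.conjTranspose_apply, Matrix.map_apply, Matrix.map_apply]
  have h2 : lapl n C q p = lapl n C p q := congrFun (congrFun h p) q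
  rw [h2]
  simp

/-- Traces of the powers of the operator. -/
lemma trace_gmat_pow (n : ℕ) (C : Matrix (Fin n) (Fin n) ℤ) (hC : Cᵀ = C) (m : ℕ) :
    trace ((Complex.I • gmat n C) ^ m) = ∑ i, (Complex.I * ((((∑ p, ∑ q, C p q : ℤ) : ℂ) / 2)
      - 2 * (((lapl_isHermitian n C hC).eigenvalues i : ℝ) : ℂ))) ^ m := by
  set hH := lapl_isHermitian n C hC with hHdef
  set w : ℂ := ((∑ p, ∑ q, C p q : ℤ) : ℂ) / 2 with hw
  set φ := Unitary.conjStarAlgAut ℂ _ hH.eigenvectorUnitary with hφ
  have hsp : (lapl n C).map (Int.cast : ℤ → ℂ) = φ (diagonal (fun i => ((hH.eigenvalues i : ℝ) : ℂ))) :=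
    hH.spectral_theorem
  have hg : Complex.I • gmat n C
      = φ (diagonal (fun i => Complex.I * (w - 2 * ((hH.eigenvalues i : ℝ) : ℂ)))) := by
    have e : diagonal (fun i => Complex.I * (w - 2 * ((hH.eigenvalues i : ℝ) : ℂ)))
        = Complex.I • (w • (1 : Matrix (Fin n) (Fin n) ℂ)
          - (2 : ℂ) • diagonal (fun i => ((hH.eigenvalues i : ℝ) : ℂ))) := by
      ext p q
      simp only [Matrix.smul_apply, Matrix.sub_apply, Matrix.diagonal_apply, Matrix.one_apply,
        smul_eq_mul]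
      split_ifs <;> ring
    rw [e, map_smul, map_sub, map_smul, map_smul, map_one, ← hsp]
    rfl
  have htr : ∀ X : Matrix (Fin n) (Fin n) ℂ, trace (φ X) = trace X := by
    intro X
    rw [hφ, Unitary.conjStarAlgAut_apply, Matrix.trace_mul_comm, ← Matrix.mul_assoc]
    rw [Unitary.coe_star_mul_self, Matrix.one_mul]
  rw [hg, ← map_pow, htr, Matrix.diagonal_pow, Matrix.trace_diagonal]
  rfl

lemma gmat_row_sum (n : ℕ) (C : Matrix (Fin n) (Fin n) ℤ) (x : Fin n) :
    ∑ y, (Complex.I • gmat n C) x y = Complex.I * (((∑ p, ∑ q, C p q : ℤ) : ℂ) / 2) := by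
  simp only [gmat, Matrix.smul_apply, Matrix.sub_apply, smul_eq_mul, Matrix.map_apply, lapl,
    Matrix.one_apply, Matrix.diagonal_apply]
  rw [← Finset.mul_sum, Finset.sum_sub_distrib]
  have h1 : ∑ y : Fin n, ((((∑ p, ∑ q, C p q : ℤ) : ℂ) / 2) * (if x = y then (1 : ℂ) else 0))
      = (((∑ p, ∑ q, C p q : ℤ) : ℂ) / 2) := by
    simp
  have h2 : ∑ y : Fin n, (2 : ℂ) * (((if x = y then (∑ q, C x q) else 0) - C x y : ℤ) : ℂ) = 0 := by
    rw [← Finset.mul_sum, ← Int.cast_sum, Finset.sum_sub_distrib]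
    simp
  rw [h1, h2, sub_zero]

end Pool.Agent.H61.AMU
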