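import Mathlib
import Pool.Agent.H61.AMU.Moments

set_option autoImplicit false

/-! # The spectral criterion -/

namespace Pool.Agent.H61.AMU

open Pool.Agent.H69.AMU Pool.Agent.H69.AMU.FusionPath Matrix Polynomial Filter Topology

lemma infinite_circle : Set.Infinite (Set.range fun s : ℝ => Complex.exp (s * Complex.I)) := by
  have hinj : Function.Injective (fun m : ℕ => Complex.exp (2 * Real.pi * Complex.I / ((m + 1 : ℕ) : ℂ))) := by
    intro a b hab
    have h1 := Complex.isPrimitiveRoot_exp (a + 1) (Nat.succ_ne_zero a)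
    have h2 := Complex.isPrimitiveRoot_exp (b + 1) (Nat.succ_ne_zero b)
    have hab' : Complex.exp (2 * Real.pi * Complex.I / ((a + 1 : ℕ) : ℂ))
        = Complex.exp (2 * Real.pi * Complex.I / ((b + 1 : ℕ) : ℂ)) := hab
    rw [hab'] at h1
    have := h1.unique h2
    omega
  apply Set.infinite_of_injective_forall_mem hinj
  intro m
  refine ⟨2 * Real.pi / ((m + 1 : ℕ) : ℝ), ?_⟩
  show Complex.exp _ = Complex.exp _
  congr 1
  push_cast
  ring

section family

variable {ι : Type} [Fintype ι] [DecidableEq ι] {F : Family ι}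

/-- The traces of powers as polynomials. -/
lemma Q_eq_comp [Nonempty ι] (h1 : aeval 1 F.E ≠ (0 : ℂ)) (hM : F.M 1 = 1) {Q : ℕ → ℤ[X]}
    (hQ : ∀ j, trace (F.P ^ j) = F.E ^ j * Q j)
    (hQ2 : ∀ j p : ℕ, p.Prime → 2 * Fintype.card ι < p → Q (j * p) = expand ℤ p (Q j))
    (j : ℕ) : Q j = (Q 1).comp (X ^ j) := by
  have hinj : Function.Injective (algebraMap ℤ ℂ) := (algebraMap ℤ ℂ).injective_int
  apply Polynomial.map_injective _ hinj
  apply Polynomial.eq_of_infinite_eval_eq
  apply infinite_circle.mono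
  rintro _ ⟨s, rfl⟩
  set z := Complex.exp (s * Complex.I) with hz
  have hz0 : z ≠ 0 := Complex.exp_ne_zero _
  have h2 := Family.q_eq_q_one (F := F) h1 hM hQ hQ2 s j
  rw [← hz, Family.q, Family.q, mul_one, ← pow_mul, mul_comm j F.a] at h2
  have h3 := mul_left_cancel₀ (inv_ne_zero (pow_ne_zero _ hz0)) h2
  show eval z ((Q j).map (algebraMap ℤ ℂ)) = eval z (((Q 1).comp (X ^ j)).map (algebraMap ℤ ℂ))
  rw [eval_map_algebraMap, eval_map_algebraMap, h3, aeval_comp]
  simp

/-- The traces of powers at every parameter. -/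
lemma trace_pow_generic [Nonempty ι] (h1 : aeval 1 F.E ≠ (0 : ℂ)) (hM : F.M 1 = 1) {Q : ℕ → ℤ[X]}
    (hQ : ∀ j, trace (F.P ^ j) = F.E ^ j * Q j)
    (hQ2 : ∀ j p : ℕ, p.Prime → 2 * Fintype.card ι < p → Q (j * p) = expand ℤ p (Q j))
    {z : ℂ} (hz : z ≠ 0) (hE : aeval z F.E ≠ 0) (j : ℕ) :
    trace ((F.M z) ^ j) = ∑ i ∈ Finset.range ((Q 1).natDegree + 1),
      ((Q 1).coeff i : ℂ) * (z ^ j) ^ ((i : ℤ) - F.a) := by
  rw [Family.trace_eq_q hQ hz hE, ← q_one_expand Q (pow_ne_zero _ hz), Family.q, Family.q,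
    Q_eq_comp h1 hM hQ hQ2 j, aeval_comp, mul_one, ← pow_mul, mul_comm j F.a]
  simp

end family

lemma finite_not_admissible (N : ℕ) : Set.Finite {z : ℂ | ¬ Admissible N N z} := by
  have h1 : {z : ℂ | ¬ Admissible N N z} ⊆
      ({0} ∪ ((Epoly N).map (algebraMap ℤ ℂ)).roots.toFinset : Set ℂ) := by
    intro z hz
    by_cases hz0 : z = 0
    · left; exact hz0
    · right
      have h2 : aeval z (Epoly N) = 0 := by
        by_contra h
        exact hz ((admissible_iff N z).2 ⟨hz0, h⟩)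
      have hne : (Epoly N).map (algebraMap ℤ ℂ) ≠ 0 := ((Epoly_monic N).map _).ne_zero
      simp only [Finset.mem_coe, Multiset.mem_toFinset]
      rw [mem_roots hne, IsRoot.def, eval_map_algebraMap]
      exact h2
  exact ((Set.finite_singleton _).union (Finset.finite_toSet _)).subset h1

lemma infinite_admissible (N : ℕ) : Set.Infinite {z : ℂ | Admissible N N z} := by
  have h := (finite_not_admissible N).infinite_compl
  refine h.mono ?_
  intro z hz
  by_contra hcon
  exact hz hcon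

/-- A regular function with bounded natural values is constant. -/
lemma reg_const {N : ℕ} {f : ℂ → ℂ} (hf : Reg N f) (B : ℕ)
    (hB : ∀ z, Admissible N N z → ∃ d : ℕ, d ≤ B ∧ f z = d) :
    ∃ d : ℕ, d ≤ B ∧ ∀ z, Admissible N N z → f z = d := by
  have h1 : ∃ d : ℕ, d ≤ B ∧ Set.Infinite {z : ℂ | Admissible N N z ∧ f z = d} := by
    by_contra hcon
    push Not at hcon
    apply infinite_admissible N
    have h2 : Set.Finite (⋃ d ∈ Set.Iic B, {z : ℂ | Admissible N N z ∧ f z = (d : ℕ)}) :=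
      Set.Finite.biUnion (Set.finite_Iic B) (fun d hd => hcon d hd)
    refine h2.subset ?_
    intro z hz
    obtain ⟨d, hd, hd'⟩ := hB z hz
    exact Set.mem_biUnion (show d ∈ Set.Iic B from hd) ⟨hz, hd'⟩
  obtain ⟨d, hd, hinf⟩ := h1
  refine ⟨d, hd, ?_⟩
  obtain ⟨P, a, s, hP⟩ := hf
  have hev : ∀ (g : ℤ[X]) (z : ℂ), (g.map (algebraMap ℤ ℂ)).eval z = aeval z g := fun g z => by
    rw [eval_map_algebraMap]
  have heq : P.map (algebraMap ℤ ℂ) = ((C (d : ℤ)) * (X ^ a * Epoly N ^ s)).map (algebraMap ℤ ℂ) := by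
    apply Polynomial.eq_of_infinite_eval_eq
    refine hinf.mono ?_
    rintro z ⟨hz, hzd⟩
    show eval z _ = eval z _
    rw [hev, hev, ← hP z hz, hzd]
    simp
  intro z hz
  have h3 := hP z hz
  have h4 : aeval z P = aeval z ((C (d : ℤ)) * (X ^ a * Epoly N ^ s)) := by
    rw [← hev P z, heq, hev]
  rw [h4] at h3
  simp only [map_mul, map_pow, aeval_X, map_natCast] at h3
  have hne : z ^ a * (aeval z (Epoly N)) ^ s ≠ 0 :=
    mul_ne_zero (pow_ne_zero _ hz.1) (pow_ne_zero _ ((admissible_iff N z).1 hz).2)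
  exact mul_right_cancel₀ hne h3

/-- The trace of an idempotent matrix is a natural number. -/
lemma trace_idem {ι : Type*} [Fintype ι] [DecidableEq ι] (P : Matrix ι ι ℂ) (hP : P * P = P) :
    ∃ d : ℕ, d ≤ Fintype.card ι ∧ trace P = d := by
  have h1 : IsIdempotentElem (Matrix.toLin' P) := by
    show (Matrix.toLin' P).comp (Matrix.toLin' P) = Matrix.toLin' P
    rw [← Matrix.toLin'_mul, hP]
  have h2 := LinearMap.IsIdempotentElem.isProj_range _ h1
  have h3 := h2.trace
  refine ⟨Module.finrank ℂ (LinearMap.range (Matrix.toLin' P)), ?_, ?_⟩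
  · have := Submodule.finrank_le (LinearMap.range (Matrix.toLin' P))
    rwa [Module.finrank_fintype_fun_eq_card] at this
  · rw [← h3, Matrix.trace_toLin'_eq]

/-- Averaging the powers of a matrix of finite order. -/
lemma average_idem {ι : Type*} [Fintype ι] [DecidableEq ι] (X P : Matrix ι ι ℂ) (K : ℕ) (hK : 0 < K)
    (hX : X ^ K = 1) (hP : P * P = P) (hXP : X * P = P * X) :
    (((K : ℂ)⁻¹ • ∑ j ∈ Finset.range K, X ^ j) * P) * (((K : ℂ)⁻¹ • ∑ j ∈ Finset.range K, X ^ j) * P)
      = ((K : ℂ)⁻¹ • ∑ j ∈ Finset.range K, X ^ j) * P := by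
  set S := ∑ j ∈ Finset.range K, X ^ j with hS
  have hKC : (K : ℂ) ≠ 0 := by exact_mod_cast hK.ne'
  have hXS : X * S = S := by
    rw [hS, Finset.mul_sum]
    have e : ∀ j, X * X ^ j = X ^ (j + 1) := fun j => (pow_succ' X j).symm
    simp only [e]
    have h1 := Finset.sum_range_succ (fun j => X ^ j) K
    have h2 := Finset.sum_range_succ' (fun j => X ^ j) K
    rw [h1, hX, pow_zero] at h2
    exact (add_right_cancel h2).symm
  have hXjS : ∀ j, X ^ j * S = S := by
    intro j
    induction j with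
    | zero => rw [pow_zero, Matrix.one_mul]
    | succ j ih => rw [pow_succ, Matrix.mul_assoc, hXS, ih]
  have hSS : S * S = (K : ℂ) • S := by
    nth_rewrite 1 [hS]
    rw [Finset.sum_mul, Finset.sum_congr rfl (fun j _ => hXjS j), Finset.sum_const,
      Finset.card_range, ← Nat.cast_smul_eq_nsmul ℂ]
  have hSP : S * P = P * S := by
    rw [hS, Finset.sum_mul, Finset.mul_sum]
    apply Finset.sum_congr rfl
    intro j _
    exact (Commute.pow_left (show Commute X P from hXP) j).eq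
  have h1 : (S * P) * (S * P) = (K : ℂ) • (S * P) := by
    calc (S * P) * (S * P) = S * (P * S) * P := by simp only [Matrix.mul_assoc]
      _ = S * (S * P) * P := by rw [hSP]
      _ = (S * S) * (P * P) := by simp only [Matrix.mul_assoc]
      _ = (K : ℂ) • (S * P) := by rw [hSS, hP, Matrix.smul_mul]
  rw [Matrix.smul_mul, Matrix.smul_mul, Matrix.mul_smul, h1, smul_smul, smul_smul]
  congr 1
  field_simp

/-- Orthogonality of characters. -/
lemma average_zpow {ζ : ℂ} {K : ℕ} (hK : 0 < K) (hζ : IsPrimitiveRoot ζ K) (l : ℤ) (hl : |l| < K) :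
    (K : ℂ)⁻¹ * ∑ j ∈ Finset.range K, (ζ ^ l) ^ j = if l = 0 then 1 else 0 := by
  have hKC : (K : ℂ) ≠ 0 := by exact_mod_cast hK.ne'
  by_cases h : l = 0
  · subst h
    simp [hKC]
  · rw [if_neg h]
    have h1 : ζ ^ l ≠ 1 := by
      intro h2
      have h3 := (hζ.zpow_eq_one_iff_dvd l).1 h2
      have h4 := Int.le_of_dvd (abs_pos.2 h) ((dvd_abs _ _).2 h3)
      omega
    have h2 : (ζ ^ l) ^ K = 1 := by
      rw [← zpow_natCast, ← _root_.zpow_mul, mul_comm, _root_.zpow_mul, zpow_natCast, hζ.pow_eq_one,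
        _root_.one_zpow]
    have h3 := mul_geom_sum (ζ ^ l) K
    rw [h2, sub_self] at h3
    have h4 := (mul_eq_zero.1 h3).resolve_left (sub_ne_zero.2 h1)
    rw [h4, mul_zero]

lemma multiset_sum_replicate (s : Finset ℕ) (e : ℕ → ℕ) (x : ℕ → ℤ) (f : ℤ → ℂ) :
    ((∑ k ∈ s, Multiset.replicate (e k) (x k)).map f).sum = ∑ k ∈ s, (e k : ℂ) * f (x k) := by
  classical
  induction s using Finset.induction_on with
  | empty => simp
  | insert a s ha ih =>
    rw [Finset.sum_insert ha, Finset.sum_insert ha, Multiset.map_add, Multiset.sum_add, ih,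
      Multiset.map_replicate, Multiset.sum_replicate, nsmul_eq_mul]

end Pool.Agent.H61.AMU
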