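import Mathlib
import Pool.Agent.H61.AMU.Spectrum
import Pool.Agent.H61.AMU.Defs

set_option autoImplicit false

/-! # The spectral criterion for finite order at infinitely many levels -/

namespace Pool.Agent.H61.AMU

open Pool.Agent.H69.AMU Pool.Agent.H69.AMU.FusionPath Matrix Polynomial Filter Topology

section
variable {n k : ℕ} (c : ℕ) (hk : 0 < k) (hkN : k ≤ n * k + 1)

lemma colRep_pow_val (A : ℂ) (hA : Admissible (n * k) (n * k) A) (γ : BraidGroup n) (m : ℕ) :
    (colRep n k c (n * k) hk A hA hkN γ).val ^ m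
      = (braidRep (n * k) c (n * k) A hA (cable n k hk γ)).val ^ m * colourIdem n k c (n * k) A
        + (1 - colourIdem n k c (n * k) A) := by
  rw [← Units.val_pow_eq_pow_val, ← map_pow, colRep_val, map_pow, map_pow, Units.val_pow_eq_pow_val]

lemma trace_colRep_pow (A : ℂ) (hA : Admissible (n * k) (n * k) A) (γ : BraidGroup n) (m : ℕ) :
    trace ((colRep n k c (n * k) hk A hA hkN γ).val ^ m) = genTrace n k c hk A hA γ m
      + (Fintype.card (FusionPath (n * k) c (n * k)) - trace (colourIdem n k c (n * k) A)) := by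
  rw [colRep_pow_val, trace_add, trace_sub, trace_one, genTrace]

lemma colRep_pow_mul_idem (A : ℂ) (hA : Admissible (n * k) (n * k) A) (γ : BraidGroup n) (m : ℕ) :
    trace ((colRep n k c (n * k) hk A hA hkN γ).val ^ m * colourIdem n k c (n * k) A)
      = genTrace n k c hk A hA γ m := by
  have hP := colourIdem_idem (c := c) hA hkN
  rw [colRep_pow_val, add_mul, sub_mul, one_mul, hP, sub_self, add_zero, Matrix.mul_assoc, hP]
  rfl

include hkN in
lemma trace_colourIdem_const : ∃ d : ℕ, d ≤ Fintype.card (FusionPath (n * k) c (n * k)) ∧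
    ∀ z, Admissible (n * k) (n * k) z → trace (colourIdem n k c (n * k) z) = d := by
  have hreg := regMat_colourProj (N := n * k) (c := c) k n hkN
  choose f hf hf' using hreg
  have h1 : Reg (n * k) (fun z => ∑ p, f p p z) := Reg.sum _ _ fun p _ => hf p p
  have h2 : ∀ z, Admissible (n * k) (n * k) z → (∑ p, f p p z) = trace (colourIdem n k c (n * k) z) := by
    intro z hz
    unfold Matrix.trace
    exact Finset.sum_congr rfl fun p _ => hf' p p z hz
  obtain ⟨d, hd, hd'⟩ := reg_const h1 (Fintype.card (FusionPath (n * k) c (n * k))) (by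
    intro z hz
    obtain ⟨d, hd, hd'⟩ := trace_idem _ (colourIdem_idem (c := c) hz hkN)
    exact ⟨d, hd, by rw [h2 z hz, hd']⟩)
  exact ⟨d, hd, fun z hz => by rw [← h2 z hz]; exact hd' z hz⟩

/-- Finite order at infinitely many levels forces the generic spectrum. -/
theorem exists_multiset (γ : BraidGroup n) (hγ : γ ∈ pureBraid n) (R : Set ℕ) (hR : R.Infinite)
    (hfin : ∀ r ∈ R, 0 < r ∧ ∃ A : ℂ, IsPrimitiveRoot (A ^ 4) r ∧
      ∃ h : Admissible (n * k) (n * k) A, ∃ m : ℕ, m ≠ 0 ∧
        (colRep n k c (n * k) hk A h hkN γ).val ^ m = 1) :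
    ∃ μ : Multiset ℤ, ∀ (A : ℂ) (hA : Admissible (n * k) (n * k) A) (m : ℕ),
      genTrace n k c hk A hA γ m = (μ.map fun h => A ^ ((m : ℤ) * h)).sum := by
  classical
  rcases isEmpty_or_nonempty (FusionPath (n * k) c (n * k)) with hempty | hne
  · refine ⟨0, fun A hA m => ?_⟩
    simp [genTrace, Matrix.trace]
  have hrigid := rigidity_pure c hk hkN γ hγ R hR hfin
  obtain ⟨F, hF, hF'⟩ := exists_family_of_regMat (regMat_colRep (c := c) hk hkN γ)
  have hE1 : aeval (1 : ℂ) F.E ≠ 0 := (hF 1 one_ne_zero).2 admissible_one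
  have hM1 : F.M 1 = 1 := by
    rw [hF' 1 admissible_one]
    exact colRep_one_of_pure hk 1 rfl _ hkN γ hγ
  choose! hpos f hf1 hf2 mm hmm hmm' using hfin
  have hS : ((fun r => orderOf (f r)) '' R).Infinite := by
    intro hfinite
    apply hR
    obtain ⟨B, hB⟩ := hfinite.bddAbove
    apply (Set.finite_Iic B).subset
    intro r' hr'
    have h1 := pos_of_isPrimitiveRoot_of_pow (hpos r' hr') (hf1 r' hr')
    have h2 : r' ≤ orderOf (f r') := Nat.le_of_dvd h1.1 h1.2
    exact h2.trans (hB ⟨r', hr', rfl⟩)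
  have hdet := family_det c hk hkN hF hF'
  have hfinF : ∀ N ∈ ((fun r => orderOf (f r)) '' R), ∃ ζ : ℂ, IsPrimitiveRoot ζ N ∧
      aeval ζ F.E ≠ 0 ∧ F.FiniteAt ζ := by
    rintro _ ⟨r', hr', rfl⟩
    have hadm := hf2 r' hr'
    refine ⟨f r', IsPrimitiveRoot.orderOf _, (hF _ hadm.1).2 hadm, mm r', hmm r' hr', 1, ?_⟩
    rw [hF' _ hadm, hmm' r' hr', one_smul]
  obtain ⟨Q, hQ, hQ2⟩ := F.exists_quotients _ hS hdet hfinF
  obtain ⟨d, hd, hdP⟩ := trace_colourIdem_const (n := n) (k := k) c hkN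
  set N := Fintype.card (FusionPath (n * k) c (n * k)) with hN
  set K := (Q 1).natDegree + F.a with hKdef
  let e : ℕ → ℤ := fun i => (Q 1).coeff i - if i = F.a then ((N : ℤ) - d) else 0
  have hT : ∀ (z : ℂ) (h : Admissible (n * k) (n * k) z) (m : ℕ),
      genTrace n k c hk z h γ m
        = ∑ i ∈ Finset.range (K + 1), (e i : ℂ) * z ^ ((m : ℤ) * ((i : ℤ) - F.a)) := by
    intro z h m
    have h1 := trace_pow_generic hE1 hM1 hQ hQ2 h.1 ((hF z h.1).2 h) m
    rw [hF' z h, trace_colRep_pow, hdP z h] at h1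
    have h2 : ∑ i ∈ Finset.range ((Q 1).natDegree + 1), ((Q 1).coeff i : ℂ) * (z ^ m) ^ ((i : ℤ) - F.a)
        = ∑ i ∈ Finset.range (K + 1), ((Q 1).coeff i : ℂ) * (z ^ m) ^ ((i : ℤ) - F.a) := by
      apply Finset.sum_subset
      · intro x hx
        rw [Finset.mem_range] at hx ⊢
        omega
      · intro x _ hx
        rw [Finset.mem_range, not_lt] at hx
        rw [Polynomial.coeff_eq_zero_of_natDegree_lt (by omega)]
        simp
    have h3 : ∑ i ∈ Finset.range (K + 1), (e i : ℂ) * z ^ ((m : ℤ) * ((i : ℤ) - F.a))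
        = ∑ i ∈ Finset.range (K + 1), ((Q 1).coeff i : ℂ) * (z ^ m) ^ ((i : ℤ) - F.a)
          - ((N : ℂ) - d) := by
      have h4 : ∀ i ∈ Finset.range (K + 1), (e i : ℂ) * z ^ ((m : ℤ) * ((i : ℤ) - F.a))
          = ((Q 1).coeff i : ℂ) * (z ^ m) ^ ((i : ℤ) - F.a)
            - (if i = F.a then ((N : ℂ) - d) else 0) := by
        intro i _
        have h5 : z ^ ((m : ℤ) * ((i : ℤ) - F.a)) = (z ^ m) ^ ((i : ℤ) - F.a) := by
          rw [← zpow_natCast, ← _root_.zpow_mul]
        rw [h5]
        by_cases hia : i = F.a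
        · subst hia
          simp only [e, if_true, sub_self, zpow_zero, mul_one]
          push_cast
          ring
        · simp only [e, if_neg hia, sub_zero]
      rw [Finset.sum_congr rfl h4, Finset.sum_sub_distrib, Finset.sum_ite_eq',
        if_pos (Finset.mem_range.2 (by omega))]
    rw [h3, ← h2, ← h1]
    ring
  -- positivity
  have hnn : ∀ i0 ∈ Finset.range (K + 1), ∃ ν : ℕ, (e i0 : ℂ) = ν := by
    intro i0 hi0
    rw [Finset.mem_range] at hi0
    -- a large level
    set r := n * k + 2 + K + 1 with hr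
    have hr0 : r ≠ 0 := by omega
    set A : ℂ := Complex.exp (2 * Real.pi * Complex.I / ((4 * r : ℕ) : ℂ)) with hA
    have hAprim : IsPrimitiveRoot A (4 * r) := Complex.isPrimitiveRoot_exp (4 * r) (by omega)
    have hA4 : IsPrimitiveRoot (A ^ 4) r := hAprim.pow (by omega) (by ring)
    have hadm : Admissible (n * k) (n * k) A := admissible_of_primitive' (by omega) hA4
    have hord : orderOf A = 4 * r := hAprim.eq_orderOf.symm
    have hone := hrigid r (by omega) A hA4 hadm
    rw [map_pow, Units.val_pow_eq_pow_val, hord] at hone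
    set M := (colRep n k c (n * k) hk A hadm hkN γ).val with hM
    set P := colourIdem n k c (n * k) A with hP
    have hPP : P * P = P := colourIdem_idem hadm hkN
    have hMP : M * P = P * M := by
      have h1 := braidRep_cable_comm (c := c) hk hadm γ
      rw [hM, colRep_val, ← hP, add_mul, sub_mul, one_mul, hPP, sub_self, add_zero, mul_add, mul_sub,
        mul_one, hPP, sub_self, add_zero, ← Matrix.mul_assoc, ← h1, Matrix.mul_assoc, hPP]
    set x : ℂ := A ^ (-((i0 : ℤ) - F.a)) with hx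
    have hx1 : ∀ l : ℤ, (A ^ l) ^ (4 * r) = 1 := by
      intro l
      have e1 : (A ^ l) ^ (4 * r) = (A ^ (4 * r)) ^ l := by
        rw [← zpow_natCast (A ^ l), ← _root_.zpow_mul, mul_comm l, _root_.zpow_mul, zpow_natCast]
      rw [e1, hAprim.pow_eq_one, _root_.one_zpow]
    have hX : (x • M) ^ (4 * r) = 1 := by
      rw [_root_.smul_pow, hone, hx, hx1, one_smul]
    have hXP : (x • M) * P = P * (x • M) := by
      rw [Matrix.smul_mul, Matrix.mul_smul, hMP]
    have hidem := average_idem (x • M) P (4 * r) (by omega) hX hPP hXP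
    obtain ⟨ν, _, hν⟩ := trace_idem _ hidem
    refine ⟨ν, ?_⟩
    rw [← hν]
    -- compute the trace
    have h1 : trace ((((4 * r : ℕ) : ℂ)⁻¹ • ∑ j ∈ Finset.range (4 * r), (x • M) ^ j) * P)
        = ((4 * r : ℕ) : ℂ)⁻¹ * ∑ j ∈ Finset.range (4 * r), x ^ j * genTrace n k c hk A hadm γ j := by
      rw [Matrix.smul_mul, trace_smul, smul_eq_mul, Finset.sum_mul, trace_sum]
      congr 1
      apply Finset.sum_congr rfl
      intro j _
      rw [_root_.smul_pow, Matrix.smul_mul, trace_smul, smul_eq_mul, hM, hP, colRep_pow_mul_idem]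
    rw [h1]
    have h2 : ∀ j ∈ Finset.range (4 * r), x ^ j * genTrace n k c hk A hadm γ j
        = ∑ i ∈ Finset.range (K + 1), (e i : ℂ) * (A ^ ((i : ℤ) - i0)) ^ j := by
      intro j _
      rw [hT A hadm j, Finset.mul_sum]
      apply Finset.sum_congr rfl
      intro i _
      have h3 : (A ^ ((i : ℤ) - i0)) ^ j = x ^ j * A ^ ((j : ℤ) * ((i : ℤ) - F.a)) := by
        rw [hx, ← zpow_natCast, ← zpow_natCast, ← _root_.zpow_mul, ← _root_.zpow_mul,
          ← zpow_add₀ hadm.1]
        congr 1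
        ring
      rw [h3]
      ring
    rw [Finset.sum_congr rfl h2, Finset.sum_comm, Finset.mul_sum]
    have h4 : ∀ i ∈ Finset.range (K + 1), ((4 * r : ℕ) : ℂ)⁻¹ *
        ∑ j ∈ Finset.range (4 * r), (e i : ℂ) * (A ^ ((i : ℤ) - i0)) ^ j
        = (e i : ℂ) * (if i = i0 then 1 else 0) := by
      intro i hi
      rw [Finset.mem_range] at hi
      rw [← Finset.mul_sum]
      have h5 := average_zpow (by omega : 0 < 4 * r) hAprim ((i : ℤ) - i0) (by
        rw [abs_lt]
        constructor <;> push_cast <;> omega)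
      have h6 : (((i : ℤ) - i0 = 0) = (i = i0)) := by
        apply propext
        constructor
        · intro h; omega
        · intro h; omega
      simp only [h6] at h5
      rw [← h5]
      ring
    rw [Finset.sum_congr rfl h4]
    simp only [mul_ite, mul_one, mul_zero]
    rw [Finset.sum_ite_eq', if_pos (Finset.mem_range.2 hi0)]
  choose! ν hν using hnn
  refine ⟨∑ i ∈ Finset.range (K + 1), Multiset.replicate (ν i) ((i : ℤ) - F.a), ?_⟩
  intro A hA m
  rw [multiset_sum_replicate, hT A hA m]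
  apply Finset.sum_congr rfl
  intro i hi
  rw [hν i hi]

/-- The generic spectrum forces finite order at every level. -/
theorem finite_of_multiset (γ : BraidGroup n) (μ : Multiset ℤ)
    (hμ : ∀ (A : ℂ) (hA : Admissible (n * k) (n * k) A) (m : ℕ),
      genTrace n k c hk A hA γ m = (μ.map fun h => A ^ ((m : ℤ) * h)).sum)
    (r : ℕ) (hr : n * k + 2 ≤ r) (A : ℂ) (hA : IsPrimitiveRoot (A ^ 4) r)
    (h : Admissible (n * k) (n * k) A) :
    (colRep n k c (n * k) hk A h hkN (γ ^ orderOf A)).val = 1 := by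
  have hr0 : 0 < r := by omega
  obtain ⟨z, hz, hz4⟩ := exists_conjugate hr0 hA
  have hz4' : IsPrimitiveRoot (z ^ 4) r := by
    rw [hz4]
    exact Complex.isPrimitiveRoot_exp r hr0.ne'
  have hadm := admissible_of_primitive' hr hz4'
  have hordpos := (pos_of_isPrimitiveRoot_of_pow hr0 hA).1
  have h0 := hμ z hadm 0
  have h1 := hμ z hadm (orderOf A)
  have e0 : (μ.map fun h => z ^ (((0 : ℕ) : ℤ) * h)).sum = Multiset.card μ := by
    simp
  have e1 : (μ.map fun h => z ^ (((orderOf A : ℕ) : ℤ) * h)).sum = Multiset.card μ := by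
    have e2 : ∀ h : ℤ, z ^ (((orderOf A : ℕ) : ℤ) * h) = 1 := by
      intro h
      rw [_root_.zpow_mul, zpow_natCast, hz.pow_eq_one, _root_.one_zpow]
    simp [e2]
  have htr : ((colRep n k c (n * k) hk z hadm hkN (γ ^ orderOf A)).val).trace
      = Fintype.card (FusionPath (n * k) c (n * k)) := by
    have h2 := trace_colRep_pow c hk hkN z hadm γ (orderOf A)
    have h3 := trace_colRep_pow c hk hkN z hadm γ 0
    rw [h1, e1] at h2
    rw [h0, e0, pow_zero, trace_one] at h3
    rw [map_pow, Units.val_pow_eq_pow_val, h2, ← h3]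
  have hone := colRep_eq_one_of_trace (c := c) hk r hr z hz4 hadm hkN (γ ^ orderOf A) htr
  exact colRep_one_transport c hk hkN _ _ hordpos z A hz (IsPrimitiveRoot.orderOf A) hadm h hone

/-- A braid whose coloured matrix is trivial acts trivially on the coloured space. -/
lemma act_of_colRep_one (δ : BraidGroup n) (r : ℕ) (hr : 2 ≤ r) (hr' : n * k + 2 ≤ r)
    (hkn : k ≤ n * k) (A : ℂ) (hA : IsPrimitiveRoot (A ^ 4) r) (h : Admissible (n * k) (n * k) A)
    (h2 : (colRep n k c (n * k) hk A h hkN δ).val = 1) :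
    ∀ v ∈ quantumSpace n k c r A, (quantumRep n k c r hk hr A hA δ).val *ᵥ v = v := by
  intro v hv
  have hL : n * k ≤ r - 2 := by omega
  have hadm' := admissible_of_primitive (n * k) r hr A hA
  have hkL : k ≤ r - 2 + 1 := by omega
  have h3 := liftAlg_colRep (c := c) hk hL hadm' hkL hkN δ
  rw [h2] at h3
  have h4 : (colRep n k c (r - 2) hk A hadm' hkL δ).val = 1 := by
    apply (liftAlg (n * k) c (r - 2) hL).injective
    rw [h3, map_one]
  rw [colRep_val] at h4
  have h5 : (quantumRep n k c r hk hr A hA δ).val * colourIdem n k c (r - 2) A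
      = (1 : ℂ) • colourIdem n k c (r - 2) A := by
    rw [one_smul]
    have h6 : (quantumRep n k c r hk hr A hA δ).val * colourIdem n k c (r - 2) A
        + (1 - colourIdem n k c (r - 2) A) = 1 := h4
    have h7 := eq_sub_of_add_eq h6
    rw [h7]
    abel
  have h6 := (acts_as_scalar_iff (quantumRep n k c r hk hr A hA δ).val 1).2 h5 v hv
  rw [one_smul] at h6
  exact h6

end

/-- The spectral criterion. -/
theorem spectral_criterion (n k c : ℕ) (hn : 0 < n) (hk : 0 < k) (β : BraidGroup n) (s : ℕ)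
    (hs : 0 < s) (hpure : β ^ s ∈ pureBraid n) :
    (∃ r₀ : ℕ, ∀ (r : ℕ) (hr : 2 ≤ r) (A : ℂ) (hA : IsPrimitiveRoot (A ^ 4) r), r₀ ≤ r →
      ∀ m : ℕ, 0 < m → ∀ a : ℂ, ∃ v ∈ quantumSpace n k c r A,
        (quantumRep n k c r hk hr A hA β).val ^ m *ᵥ v ≠ a • v) ↔
    ¬ ∃ μ : Multiset ℤ, ∀ (A : ℂ) (hA : Admissible (n * k) (n * k) A) (m : ℕ),
      genTrace n k c hk A hA (β ^ s) m = (μ.map fun h => A ^ ((m : ℤ) * h)).sum := by
  have hkN : k ≤ n * k + 1 := by nlinarith
  have hkN' : k ≤ n * k := by nlinarith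
  constructor
  · rintro ⟨r₀, hr₀⟩ ⟨μ, hμ⟩
    set r := r₀ + n * k + 2 with hr
    have hAprim : IsPrimitiveRoot (Complex.exp (2 * Real.pi * Complex.I / ((4 * r : ℕ) : ℂ))) (4 * r) :=
      Complex.isPrimitiveRoot_exp (4 * r) (by omega)
    set A : ℂ := Complex.exp (2 * Real.pi * Complex.I / ((4 * r : ℕ) : ℂ)) with hA
    have hA4 : IsPrimitiveRoot (A ^ 4) r := hAprim.pow (by omega) (by ring)
    have hadm : Admissible (n * k) (n * k) A := admissible_of_primitive' (by omega) hA4
    have hordpos := (pos_of_isPrimitiveRoot_of_pow (by omega : 0 < r) hA4).1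
    have h1 := finite_of_multiset c hk hkN (β ^ s) μ hμ r (by omega) A hA4 hadm
    have h2 := act_of_colRep_one c hk hkN ((β ^ s) ^ orderOf A) r (by omega) (by omega) hkN' A hA4 hadm h1
    obtain ⟨v, hv, hv'⟩ := hr₀ r (by omega) A hA4 (by omega) (s * orderOf A)
      (Nat.mul_pos hs hordpos) 1
    apply hv'
    have h3 := h2 v hv
    rw [← pow_mul, map_pow, Units.val_pow_eq_pow_val] at h3
    rw [h3, one_smul]
  · intro hcon
    by_contra hcase
    push Not at hcase
    apply hcon
    let R : Set ℕ := {r | n * k + 2 ≤ r ∧ ∃ A : ℂ, IsPrimitiveRoot (A ^ 4) r ∧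
        ∃ h : Admissible (n * k) (n * k) A, ∃ m : ℕ, m ≠ 0 ∧
          (colRep n k c (n * k) hk A h hkN (β ^ s)).val ^ m = 1}
    have hR : R.Infinite := by
      apply Set.infinite_of_not_bddAbove
      rintro ⟨B, hB⟩
      obtain ⟨r, hr, A, hA, hrB, m, hm, a, ha⟩ := hcase (B + n * k + 3)
      have hadm := admissible_of_primitive' (by omega : n * k + 2 ≤ r) hA
      obtain ⟨t, ht, ht'⟩ := finite_of_scalar c hk hkN β hkN' r hr (by omega) A hA m hm a ha hadm
      have hrR : r ∈ R := by
        refine ⟨by omega, A, hA, hadm, t, ht, ?_⟩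
        rw [map_pow, Units.val_pow_eq_pow_val, ← pow_mul, mul_comm s t, pow_mul, ht', one_pow]
      have := hB hrR
      omega
    exact exists_multiset c hk hkN (β ^ s) hpure R hR (fun r hr => ⟨by have := hr.1; omega, hr.2⟩)

end Pool.Agent.H61.AMU
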