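import Mathlib
import Pool.Agent.H61.AMU.Criterion

set_option autoImplicit false

/-! # The Laplacian dichotomy -/

namespace Pool.Agent.H61.AMU

open Pool.Agent.H69.AMU Pool.Agent.H69.AMU.FusionPath Matrix Polynomial Filter Topology

lemma crossing_symm (n : ℕ) (b : BraidGroup n) : (crossing n b)ᵀ = crossing n b := by
  have hmem : b ∈ Subgroup.closure (gen n '' Set.Iio (n - 1)) := by
    rw [closure_gen]; exact Subgroup.mem_top b
  have hsub : ∀ (w : Equiv.Perm (Fin n)) (M : Matrix (Fin n) (Fin n) ℤ), Mᵀ = M →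
      (M.submatrix w w)ᵀ = M.submatrix w w := by
    intro w M hM
    rw [Matrix.transpose_submatrix, hM]
  induction hmem using Subgroup.closure_induction with
  | mem x hx =>
    obtain ⟨g, hg, rfl⟩ := hx
    rw [crossing_gen n hg, pairMat, Matrix.transpose_add, Matrix.transpose_single,
      Matrix.transpose_single, add_comm]
  | one => rw [crossing_one, Matrix.transpose_zero]
  | mul x y _ _ hx hy =>
    rw [crossing_mul, Matrix.transpose_add, hx, hsub _ _ hy]
  | inv x _ hx =>
    have h1 := crossing_mul n x⁻¹ x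
    rw [inv_mul_cancel, crossing_one] at h1
    rw [eq_neg_of_add_eq_zero_left h1.symm, Matrix.transpose_neg, hsub _ _ hx]

lemma crossing_diag (n : ℕ) (b : BraidGroup n) (p : Fin n) : crossing n b p p = 0 := by
  have hmem : b ∈ Subgroup.closure (gen n '' Set.Iio (n - 1)) := by
    rw [closure_gen]; exact Subgroup.mem_top b
  revert p
  induction hmem using Subgroup.closure_induction with
  | mem x hx =>
    obtain ⟨g, hg, rfl⟩ := hx
    intro p
    rw [crossing_gen n hg]
    simp only [pairMat, Matrix.add_apply, Matrix.single_apply]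
    rw [if_neg, if_neg]
    · rfl
    · rintro ⟨h1, h2⟩
      rw [← h2] at h1
      have := congrArg Fin.val h1
      simp at this
    · rintro ⟨h1, h2⟩
      rw [← h2] at h1
      have := congrArg Fin.val h1
      simp at this
  | one => intro p; rw [crossing_one]; rfl
  | mul x y _ _ hx hy =>
    intro p
    rw [crossing_mul, Matrix.add_apply, hx, Matrix.submatrix_apply, hy, add_zero]
  | inv x _ hx =>
    intro p
    have h1 := crossing_mul n x⁻¹ x
    rw [inv_mul_cancel, crossing_one] at h1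
    rw [eq_neg_of_add_eq_zero_left h1.symm, Matrix.neg_apply, Matrix.submatrix_apply, hx, neg_zero]

lemma sum_crossing (n : ℕ) (b : BraidGroup n) : ∑ p, ∑ q, crossing n b p q = 2 * writhe n b := by
  have h1 : ∀ p q : Fin n, crossing n b p q = (if p < q then crossing n b p q else 0)
      + (if q < p then crossing n b q p else 0) := by
    intro p q
    rcases lt_trichotomy p q with h | h | h
    · rw [if_pos h, if_neg (not_lt.2 h.le), add_zero]
    · subst h
      rw [if_neg (lt_irrefl p), crossing_diag, add_zero]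
    · rw [if_neg (not_lt.2 h.le), if_pos h, zero_add]
      have := congrFun (congrFun (crossing_symm n b) q) p
      exact this
  have h2 : ∑ p, ∑ q, crossing n b p q = (∑ p, ∑ q, if p < q then crossing n b p q else 0)
      + ∑ p, ∑ q, if q < p then crossing n b q p else 0 := by
    rw [← Finset.sum_add_distrib]
    apply Finset.sum_congr rfl
    intro p _
    rw [← Finset.sum_add_distrib]
    exact Finset.sum_congr rfl fun q _ => h1 p q
  have h3 : (∑ p, ∑ q, if q < p then crossing n b q p else 0) = writhe n b := by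
    rw [Finset.sum_comm]
    rfl
  rw [h2, h3, writhe]
  ring

/-- An eigenvalue of an integer matrix which is rational is an integer. -/
lemma int_of_rat (n : ℕ) (M : Matrix (Fin n) (Fin n) ℤ) (x : ℂ) (q : ℚ) (hq : x = q)
    (hx : aeval x M.charpoly = 0) : ∃ l : ℤ, x = l := by
  have h1 : IsIntegral ℤ x := ⟨M.charpoly, M.charpoly_monic, by rw [← hx]; rfl⟩
  have h2 : x = algebraMap ℚ ℂ q := by rw [hq]; rfl
  rw [h2, isIntegral_algebraMap_iff (algebraMap ℚ ℂ).injective] at h1
  obtain ⟨l, hl⟩ := IsIntegrallyClosed.isIntegral_iff.1 h1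
  refine ⟨l, ?_⟩
  rw [h2, ← hl]
  simp

/-- The Laplacian dichotomy. -/
theorem laplacian_dichotomy (n : ℕ) (hn : 2 ≤ n) (β : BraidGroup n) (s : ℕ)
    (hpure : β ^ s ∈ pureBraid n) :
    (∃ r₀ : ℕ, ∀ (r : ℕ) (hr : 2 ≤ r) (A : ℂ) (hA : IsPrimitiveRoot (A ^ 4) r), r₀ ≤ r →
      ∀ m : ℕ, 0 < m → ∀ a : ℂ, ∃ v ∈ quantumSpace n 1 (n - 2) r A,
        (quantumRep n 1 (n - 2) r one_pos hr A hA β).val ^ m *ᵥ v ≠ a • v) ∨
    (∃ lam : Fin n → ℤ,
      (lapl n (crossing n (β ^ s))).charpoly = ∏ i, (X - C (lam i)) ∧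
      ∀ (A : ℂ) (hA : Admissible (n * 1) (n * 1) A) (m : ℕ),
        genTrace n 1 (n - 2) one_pos A hA (β ^ s) m
          = ∑ i, A ^ ((m : ℤ) * (writhe n (β ^ s) - 2 * lam i))
            - A ^ ((m : ℤ) * writhe n (β ^ s))) := by
  have hk : 0 < 1 := one_pos
  have hkN : 1 ≤ n * 1 + 1 := by omega
  by_cases hcase : ∃ r₀ : ℕ, ∀ (r : ℕ) (hr : 2 ≤ r) (A : ℂ) (hA : IsPrimitiveRoot (A ^ 4) r), r₀ ≤ r →
      ∀ m : ℕ, 0 < m → ∀ a : ℂ, ∃ v ∈ quantumSpace n 1 (n - 2) r A,
        (quantumRep n 1 (n - 2) r one_pos hr A hA β).val ^ m *ᵥ v ≠ a • v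
  · exact Or.inl hcase
  right
  push Not at hcase
  set c := n - 2 with hc
  set γ := β ^ s with hγ
  -- infinitely many levels of finite order
  let R : Set ℕ := {r | n * 1 + 2 ≤ r ∧ ∃ A : ℂ, IsPrimitiveRoot (A ^ 4) r ∧
      ∃ h : Admissible (n * 1) (n * 1) A, ∃ m : ℕ, m ≠ 0 ∧
        (colRep n 1 c (n * 1) hk A h hkN γ).val ^ m = 1}
  have hR : R.Infinite := by
    apply Set.infinite_of_not_bddAbove
    rintro ⟨B, hB⟩
    obtain ⟨r, hr, A, hA, hrB, m, hm, a, ha⟩ := hcase (B + n * 1 + 3)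
    have hadm := admissible_of_primitive' (by omega : n * 1 + 2 ≤ r) hA
    obtain ⟨t, ht, ht'⟩ := finite_of_scalar c hk hkN β (by omega) r hr (by omega) A hA m hm a ha hadm
    have hrR : r ∈ R := by
      refine ⟨by omega, A, hA, hadm, t, ht, ?_⟩
      rw [hγ, map_pow, Units.val_pow_eq_pow_val, ← pow_mul, mul_comm s t, pow_mul, ht', one_pow]
    have := hB hrR
    omega
  have hcard := card_paths (N := n * 1) (c := c) (L := n * 1) (by omega) (by omega)
  have hne : Nonempty (FusionPath (n * 1) c (n * 1)) := by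
    rw [← Fintype.card_pos_iff]
    omega
  -- the family
  obtain ⟨F, hF, hF'⟩ := exists_family_of_regMat (regMat_colRep (c := c) hk hkN γ)
  have hE1 : aeval (1 : ℂ) F.E ≠ 0 := (hF 1 one_ne_zero).2 admissible_one
  have hM1 : F.M 1 = 1 := by
    rw [hF' 1 admissible_one]
    exact colRep_one_of_pure hk 1 rfl _ hkN γ hpure
  have hfin : ∀ r ∈ R, 0 < r ∧ ∃ A : ℂ, IsPrimitiveRoot (A ^ 4) r ∧
      ∃ h : Admissible (n * 1) (n * 1) A, ∃ m : ℕ, m ≠ 0 ∧
        (colRep n 1 c (n * 1) hk A h hkN γ).val ^ m = 1 :=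
    fun r hr => ⟨by have := hr.1; omega, hr.2⟩
  choose! hpos f hf1 hf2 mm hmm hmm' using hfin
  have hS : ((fun r => orderOf (f r)) '' R).Infinite := by
    intro hfinite
    apply hR
    obtain ⟨B, hB⟩ := hfinite.bddAbove
    apply (Set.finite_Iic B).subset
    intro r' hr'
    have h1 := pos_of_isPrimitiveRoot_of_pow (hpos r' hr') (hf1 r' hr')
    have h2 : r' ≤ orderOf (f r') := Nat.le_of_dvd h1.1 h1.2
    exact h2.trans (hB ⟨r', hr', rfl⟩)
  have hdet := family_det c hk hkN hF hF'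
  have hfinF : ∀ N ∈ ((fun r => orderOf (f r)) '' R), ∃ ζ : ℂ, IsPrimitiveRoot ζ N ∧
      aeval ζ F.E ≠ 0 ∧ F.FiniteAt ζ := by
    rintro _ ⟨r', hr', rfl⟩
    have hadm := hf2 r' hr'
    refine ⟨f r', IsPrimitiveRoot.orderOf _, (hF _ hadm.1).2 hadm, mm r', hmm r' hr', 1, ?_⟩
    rw [hF' _ hadm, hmm' r' hr', one_smul]
  obtain ⟨Q, hQ, hQ2⟩ := F.exists_quotients _ hS hdet hfinF
  -- the derivative
  obtain ⟨D, hD, hTD⟩ := exists_hasD_intertwine (hk := hk) (hkN := hkN) hn γ hpure
  have hDc : ∀ i j, HasDerivAt (fun t : ℝ => F.curve t i j) (D i j) 0 := by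
    intro i j
    refine (hD i j).congr_of_eventuallyEq ?_
    filter_upwards [curve_eventuallyEq γ F hF hF'] with t ht
    rw [ht]
  have hsymm := crossing_symm n γ
  set hH := lapl_isHermitian n (crossing n γ) hsymm with hHdef
  set w : ℂ := (writhe n γ : ℂ) with hw
  have hw2 : (((∑ p, ∑ q, crossing n γ p q : ℤ) : ℂ) / 2) = w := by
    rw [sum_crossing]
    push_cast
    ring
  have hmom : ∀ m : ℕ, ∑ i, (Complex.I * (w - 2 * ((hH.eigenvalues i : ℝ) : ℂ))) ^ m
      = (Complex.I * w) ^ m + ∑ i ∈ Finset.range ((Q 1).natDegree + 1),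
        ((Q 1).coeff i : ℂ) * (Complex.I * ((i : ℂ) - F.a)) ^ m := by
    intro m
    have h1 := trace_pow_of_intertwine n (by omega) (by omega) (by omega) D
      (Complex.I • gmat n (crossing n γ)) (Complex.I * w) hTD (fun x => by
        rw [gmat_row_sum, hw2]) m
    rw [trace_gmat_pow n _ hsymm, hw2, trace_deriv_pow hE1 hM1 hQ hQ2 D hDc m] at h1
    rw [h1, add_comm]
  have hext := fun g : ℂ → ℂ => moment_ext Finset.univ (Finset.range ((Q 1).natDegree + 1))
    (fun i => Complex.I * (w - 2 * ((hH.eigenvalues i : ℝ) : ℂ))) (Complex.I * w)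
    (fun i => ((Q 1).coeff i : ℂ)) (fun i => Complex.I * ((i : ℂ) - F.a)) hmom g
  -- rationality of the eigenvalues
  have hrat : ∀ i0, ∃ q : ℚ, ((hH.eigenvalues i0 : ℝ) : ℂ) = q := by
    intro i0
    by_contra hcon
    push Not at hcon
    have h1 := hext (fun z => if z = Complex.I * (w - 2 * ((hH.eigenvalues i0 : ℝ) : ℂ)) then 1 else 0)
    have h2 : Complex.I * w ≠ Complex.I * (w - 2 * ((hH.eigenvalues i0 : ℝ) : ℂ)) := by
      intro h
      have h3 := mul_left_cancel₀ Complex.I_ne_zero h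
      apply hcon 0
      push_cast
      linear_combination (1 / 2 : ℂ) * h3
    have h4 : ∀ j : ℕ, Complex.I * ((j : ℂ) - F.a)
        ≠ Complex.I * (w - 2 * ((hH.eigenvalues i0 : ℝ) : ℂ)) := by
      intro j h
      have h3 := mul_left_cancel₀ Complex.I_ne_zero h
      apply hcon (((writhe n γ : ℚ) - (j : ℚ) + F.a) / 2)
      push_cast
      rw [hw] at h3
      linear_combination (1 / 2 : ℂ) * h3
    rw [if_neg h2, zero_add] at h1
    have h5 : ∑ j ∈ Finset.range ((Q 1).natDegree + 1), ((Q 1).coeff j : ℂ) *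
        (if Complex.I * ((j : ℂ) - F.a) = Complex.I * (w - 2 * ((hH.eigenvalues i0 : ℝ) : ℂ)) then (1 : ℂ)
          else 0) = 0 := by
      apply Finset.sum_eq_zero
      intro j _
      rw [if_neg (h4 j), mul_zero]
    rw [h5, Finset.sum_boole] at h1
    have h6 : (Finset.univ.filter fun i => Complex.I * (w - 2 * ((hH.eigenvalues i : ℝ) : ℂ))
        = Complex.I * (w - 2 * ((hH.eigenvalues i0 : ℝ) : ℂ))).card = 0 := by
      exact_mod_cast h1
    rw [Finset.card_eq_zero] at h6
    have h7 : i0 ∈ (Finset.univ.filter fun i => Complex.I * (w - 2 * ((hH.eigenvalues i : ℝ) : ℂ))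
        = Complex.I * (w - 2 * ((hH.eigenvalues i0 : ℝ) : ℂ))) := by simp
    rw [h6] at h7
    exact absurd h7 (Finset.notMem_empty _)
  -- the characteristic polynomial
  have hchar : ((lapl n (crossing n γ)).charpoly).map (Int.castRingHom ℂ)
      = ∏ i, (X - C (((hH.eigenvalues i : ℝ) : ℂ))) := by
    rw [← Matrix.charpoly_map]
    exact hH.charpoly_eq
  have hint : ∀ i, ∃ l : ℤ, ((hH.eigenvalues i : ℝ) : ℂ) = l := by
    intro i
    obtain ⟨q, hq⟩ := hrat i
    apply int_of_rat n (lapl n (crossing n γ)) _ q hq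
    have h1 : aeval ((hH.eigenvalues i : ℝ) : ℂ) (lapl n (crossing n γ)).charpoly
        = (((lapl n (crossing n γ)).charpoly).map (Int.castRingHom ℂ)).eval
          ((hH.eigenvalues i : ℝ) : ℂ) := by
      rw [Polynomial.eval_map]
      rfl
    rw [h1, hchar, Polynomial.eval_prod]
    exact Finset.prod_eq_zero (Finset.mem_univ i) (by simp)
  choose lam hlam using hint
  refine ⟨lam, ?_, ?_⟩
  · apply Polynomial.map_injective (Int.castRingHom ℂ) (RingHom.injective_int _)
    rw [hchar, Polynomial.map_prod]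
    apply Finset.prod_congr rfl
    intro i _
    rw [Polynomial.map_sub, Polynomial.map_X, Polynomial.map_C, hlam i]
    simp
  · intro A hadm m
    have hAE : aeval A F.E ≠ 0 := (hF A hadm.1).2 hadm
    have hy : A ^ m ≠ 0 := pow_ne_zero _ hadm.1
    have h1 := trace_pow_generic hE1 hM1 hQ hQ2 hadm.1 hAE m
    rw [hF' A hadm, trace_colRep_pow, colourIdem_one, trace_one, sub_self, add_zero] at h1
    have h2 := hext (fun x => Complex.exp (Complex.log (A ^ m) * (-Complex.I * x)))
    have hpow : ∀ l : ℤ, Complex.exp (Complex.log (A ^ m) * (-Complex.I * (Complex.I * l)))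
        = A ^ ((m : ℤ) * l) := by
      intro l
      have e1 : Complex.log (A ^ m) * (-Complex.I * (Complex.I * l)) = l * Complex.log (A ^ m) := by
        have hI : Complex.I * Complex.I = -1 := Complex.I_mul_I
        linear_combination (-(l : ℂ) * Complex.log (A ^ m)) * hI
      rw [e1, Complex.exp_int_mul, Complex.exp_log hy, ← zpow_natCast, ← _root_.zpow_mul]
    have h3 : ∀ i, (Complex.I * (w - 2 * ((hH.eigenvalues i : ℝ) : ℂ)))
        = Complex.I * ((writhe n γ - 2 * lam i : ℤ) : ℂ) := by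
      intro i
      rw [hlam i, hw]
      push_cast
      ring
    have h4 : ∀ j : ℕ, Complex.I * ((j : ℂ) - F.a) = Complex.I * (((j : ℤ) - F.a : ℤ) : ℂ) := by
      intro j
      push_cast
      ring
    simp only [h3, h4, hpow] at h2
    have h5 : Complex.exp (Complex.log (A ^ m) * (-Complex.I * (Complex.I * w)))
        = A ^ ((m : ℤ) * writhe n γ) := hpow (writhe n γ)
    rw [h5] at h2
    have h6 : ∑ i ∈ Finset.range ((Q 1).natDegree + 1), ((Q 1).coeff i : ℂ) * (A ^ m) ^ ((i : ℤ) - F.a)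
        = ∑ i ∈ Finset.range ((Q 1).natDegree + 1),
          ((Q 1).coeff i : ℂ) * A ^ ((m : ℤ) * ((i : ℤ) - F.a)) := by
      apply Finset.sum_congr rfl
      intro i _
      rw [← zpow_natCast, ← _root_.zpow_mul]
    rw [h1, h6, h2]
    ring

end Pool.Agent.H61.AMU
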